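import Pool.Agent.Lib.MP_2a1ef3_lc.N3.Stm
import Pool.Agent.Lib.MP_2a1ef3_lc.GS1
import Pool.Agent.Lib.MP_2a1ef3_lc.GS2

/-!
Context-freeness of bounded semilinear languages is decidable in dimension at most three, from the
statements of `Stm.lean`.
-/

set_option autoImplicit false

namespace Pool.Agent.MP2a1ef3.N3

/-- The language of a list of linear sets is context-free iff the set is a finite union of
stratified linear sets. -/
theorem cf_iff_strat {n : ℕ} (S : List ((Fin n → ℕ) × List (Fin n → ℕ))) :
    (langOf (US S)).IsContextFree ↔ StratUnion (US S) :=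
  ⟨stratUnion_of_isContextFree, StratUnion.isContextFree⟩

/-- Dimension at most three. -/
theorem asm_main (h1 : S_re_strat) (h2 : S_re_cert) (h3 : S_cert_sound)
    (h4 : S_cert_complete) (h5 : S_strat_le_two) (n : ℕ) (hn : n ≤ 3) :
    ComputablePred (fun S : List ((Fin n → ℕ) × List (Fin n → ℕ)) =>
      (langOf (US S)).IsContextFree) := by
  rcases Nat.lt_or_ge n 3 with h | h
  · have h6 : ∀ S : List ((Fin n → ℕ) × List (Fin n → ℕ)), (langOf (US S)).IsContextFree ↔ True :=
      fun S => iff_true_intro (StratUnion.isContextFree (h5 (by omega) S))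
    have h7 : (fun S : List ((Fin n → ℕ) × List (Fin n → ℕ)) =>
        (langOf (US S)).IsContextFree) = fun _ => True := by
      funext S; exact propext (h6 S)
    rw [h7]
    refine ⟨fun _ => instDecidableTrue, ?_⟩
    simpa using Computable.const true
  · obtain rfl : n = 3 := le_antisymm hn h
    have h6 : (fun S : List ((Fin 3 → ℕ) × List (Fin 3 → ℕ)) =>
        (langOf (US S)).IsContextFree) = fun S => StratUnion (US S) := by
      funext S; exact propext (cf_iff_strat S)
    rw [h6]
    refine ComputablePred.computable_iff_re_compl_re'.2 ⟨h1, ?_⟩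
    refine REPred.of_eq h2 (fun S => ⟨fun hc hs => h3 hs hc, fun hs => h4 hs⟩)

end Pool.Agent.MP2a1ef3.N3
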