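import Pool.Agent.Lib.MP_2a1ef3_lc.Defs

/-!
Definitions for the decidability of context-freeness of bounded semilinear languages in dimension
three (MP_2a1ef3_lc).
-/

set_option autoImplicit false

namespace Pool.Agent.MP2a1ef3.N3

open Filter

/-- Natural vectors. -/
abbrev V := Fin 3 → ℕ

/-- Real vectors. -/
abbrev R3 := Fin 3 → ℝ

/-- Integer vectors. -/
abbrev Z3 := Fin 3 → ℤ

/-- A natural vector as a real vector. -/
def rv (x : V) : R3 := fun j => (x j : ℝ)

/-- A natural vector as an integer vector. -/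
def zv (x : V) : Z3 := fun j => (x j : ℤ)

/-- The unit vectors. -/
def ev (i : Fin 3) : V := Pi.single i 1

/-- Boundary vectors: at least one coordinate is zero. -/
def Bd (p : V) : Prop := ∃ j, p j = 0

/-- All coordinates are positive. -/
def Pos (x : V) : Prop := ∀ j, 0 < x j

/-- The relatively open cone generated by a finite set. -/
def ocone (P : Finset V) : Set R3 :=
  {x | ∃ l : V → ℝ, (∀ p ∈ P, 0 < l p) ∧ x = ∑ p ∈ P, l p • rv p}

/-- The closed cone generated by a finite set. -/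
def ccone (P : Finset V) : Set R3 :=
  {x | ∃ l : V → ℝ, (∀ p ∈ P, 0 ≤ l p) ∧ x = ∑ p ∈ P, l p • rv p}

/-- Linear independence. -/
def Ind (P : Finset V) : Prop := LinearIndependent ℝ (fun p : P => rv p.1)

/-- The germ given by three vectors. -/
def germ (q v w : V) (N : ℕ) : V := fun j => N ^ 2 * q j + N * v j + w j

/-- Pieces: independent sets of boundary vectors whose cone avoids the black cones. -/
def Piece (CC : Finset (Finset V)) (P : Finset V) : Prop :=
  (∀ p ∈ P, Bd p) ∧ Ind P ∧ ∀ C ∈ CC, Disjoint (ocone P) (ocone C)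

/-- A germ is covered by a piece. -/
def Cov (CC : Finset (Finset V)) (q v w : V) : Prop :=
  ∃ P, Piece CC P ∧ ∀ᶠ N : ℕ in atTop, rv (germ q v w N) ∈ ocone P

/-- A filter is covered by a piece. -/
def UCov (CC : Finset (Finset V)) (F : Filter V) : Prop :=
  ∃ P, Piece CC P ∧ ∀ᶠ x in F, rv x ∈ ocone P

/-- Every black cone contains points with positive coordinates. -/
def Good (CC : Finset (Finset V)) : Prop := ∀ C ∈ CC, ∀ j, ∃ k ∈ C, 0 < k j

/-- Determinant. -/
def dt (a b c : R3) : ℝ :=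
  a 0 * (b 1 * c 2 - b 2 * c 1) - a 1 * (b 0 * c 2 - b 2 * c 0) + a 2 * (b 0 * c 1 - b 1 * c 0)

/-- Dot product. -/
def dp (f x : R3) : ℝ := f 0 * x 0 + f 1 * x 1 + f 2 * x 2

/-- Parallel vectors. -/
def Par (a b : R3) : Prop := ∀ x, dt a b x = 0

/-- The black vectors. -/
def Vk (CC : Finset (Finset V)) : Finset V := CC.biUnion id

/-- The black vectors and the unit vectors. -/
def VV (CC : Finset (Finset V)) : Finset V := Vk CC ∪ {ev 0, ev 1, ev 2}

/-- The same position with respect to all lines through two vectors of `VV`. -/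
def SameSign (CC : Finset (Finset V)) (z p : R3) : Prop :=
  ∀ k ∈ VV CC, ∀ k' ∈ VV CC,
    SignType.sign (dt (rv k) (rv k') z) = SignType.sign (dt (rv k) (rv k') p)

/-- A line through `z` that avoids all black cones. -/
def Free (CC : Finset (Finset V)) (z : R3) : Prop :=
  ∃ h : R3, dp h z = 0 ∧ ∀ C ∈ CC, (∀ k ∈ C, 0 < dp h (rv k)) ∨ (∀ k ∈ C, dp h (rv k) < 0)

/-- The line through `a` and `z` meets the black cones only at `a`. -/
def PinAt (CC : Finset (Finset V)) (a : V) (z : R3) : Prop :=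
  a ≠ 0 ∧ Bd a ∧ (∀ j, a j = 0 → z j ≠ 0) ∧
    ∀ C ∈ CC, (∀ k ∈ C, Par (rv a) (rv k) ∨ 0 < dt (rv a) z (rv k)) ∨
      (∀ k ∈ C, Par (rv a) (rv k) ∨ dt (rv a) z (rv k) < 0)

/-- A line through `z` that meets the black cones only at a black boundary vector. -/
def Pin (CC : Finset (Finset V)) (z : R3) : Prop := ∃ a ∈ Vk CC, PinAt CC a z

/-- The filter tends to the direction `p`. -/
def Lim (F : Filter V) (p : R3) : Prop := ∀ f : R3, 0 < dp f p → ∀ᶠ x in F, 0 < dp f (rv x)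

/-- Modulo `k` the filter tends to the direction `v`. -/
def Dir (F : Filter V) (k v : R3) : Prop :=
  ∀ f : R3, dp f k = 0 → 0 < dp f v → ∀ᶠ x in F, 0 < dp f (rv x)

/-- Lexicographic positivity. -/
def lexpos (a b c : ℝ) : Prop := 0 < a ∨ (a = 0 ∧ (0 < b ∨ (b = 0 ∧ 0 < c)))

/-- The cut functional of the corner `i`. -/
def cut (i : Fin 3) (s x : R3) : ℝ := (∑ j ∈ Finset.univ.erase i, s j * x j) - x i

/-- Solutions of the first normal form. -/
def N1s (CC : Finset (Finset V)) (q v w : V) (s : Fin 3 → Fin 3 → ℝ) : Prop :=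
  (∀ i j, i ≠ j → 0 < s i j ∧ 1 ≤ s i j * s j i) ∧
    (∀ i, lexpos (cut i (s i) (rv q)) (cut i (s i) (rv v)) (cut i (s i) (rv w))) ∧
    ∀ C ∈ CC, ∃ i, ∀ k ∈ C, cut i (s i) (rv k) ≤ 0

/-- Solutions of the second normal form. -/
def N2s (CC : Finset (Finset V)) (q v w : V) (i : Fin 3) (s' s : R3) : Prop :=
  (∀ j, j ≠ i → 0 ≤ s' j ∧ s' j ≤ s j) ∧
    lexpos (-cut i s' (rv q)) (-cut i s' (rv v)) (-cut i s' (rv w)) ∧
    lexpos (cut i s (rv q)) (cut i s (rv v)) (cut i s (rv w)) ∧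
    ∀ C ∈ CC, (∀ k ∈ C, 0 ≤ cut i s' (rv k)) ∨ (∀ k ∈ C, cut i s (rv k) ≤ 0)

/-- Solutions of the second normal form without near cut. -/
def N2p (CC : Finset (Finset V)) (q v w : V) (i : Fin 3) (s : R3) : Prop :=
  (∀ j, j ≠ i → 0 ≤ s j) ∧
    lexpos (-cut i s (rv q)) (-cut i s (rv v)) (-cut i s (rv w)) ∧
    ∀ C ∈ CC, ∀ k ∈ C, 0 ≤ cut i s (rv k)

/-- Solutions of the third normal form. -/
def N3s (CC : Finset (Finset V)) (q v w : V) (i : Fin 3) (s : R3) : Prop :=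
  (∀ j, j ≠ i → 0 ≤ s j) ∧
    cut i s (rv q) = 0 ∧ cut i s (rv v) = 0 ∧ cut i s (rv w) = 0 ∧
    ∀ C ∈ CC, ((∀ k ∈ C, 0 ≤ cut i s (rv k)) ∧ ∃ k ∈ C, 0 < cut i s (rv k)) ∨
      ((∀ k ∈ C, cut i s (rv k) ≤ 0) ∧ ∃ k ∈ C, cut i s (rv k) < 0)

/-- Covered by a real piece in normal form. -/
def RCov (CC : Finset (Finset V)) (q v w : V) : Prop :=
  (∃ s, N1s CC q v w s) ∨ ∃ i, (∃ s' s, N2s CC q v w i s' s) ∨ (∃ s, N2p CC q v w i s) ∨
    ∃ s, N3s CC q v w i s

/-- Solutions of the first normal form with fixed labels. -/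
def N1L (CC : Finset (Finset V)) (q v w : V) (lab : Finset V → Fin 3)
    (s : Fin 3 → Fin 3 → ℝ) : Prop :=
  (∀ i j, i ≠ j → 0 < s i j ∧ 1 ≤ s i j * s j i) ∧
    (∀ i, lexpos (cut i (s i) (rv q)) (cut i (s i) (rv v)) (cut i (s i) (rv w))) ∧
    ∀ C ∈ CC, ∀ k ∈ C, cut (lab C) (s (lab C)) (rv k) ≤ 0

/-- The rational affine relations of the row `i`. -/
def RowRel (i : Fin 3) (r r' : R3) : Prop :=
  ∀ (c : Fin 3 → ℚ) (d : ℚ), (∑ j ∈ Finset.univ.erase i, (c j : ℝ) * r j) + d = 0 →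
    (∑ j ∈ Finset.univ.erase i, (c j : ℝ) * r' j) + d = 0

/-- Solutions with rigid tight couplings. -/
def Rigid (CC : Finset (Finset V)) (q v w : V) (lab : Finset V → Fin 3)
    (s : Fin 3 → Fin 3 → ℝ) : Prop :=
  N1L CC q v w lab s ∧ ∀ s', N1L CC q v w lab s' → ∀ i j, i ≠ j → s i j * s j i = 1 →
    s' i j = s i j

/-- A natural multiple of `r e_i + e_j`. -/
def gv (i j : Fin 3) (r : ℚ) : V :=
  fun t => if t = i then r.num.toNat else if t = j then r.den else 0

/-- All positive germs outside of the black cones are covered. -/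
def AllCov (CC : Finset (Finset V)) : Prop :=
  ∀ q v w : V, (∀ j, 0 < q j + v j + w j) →
    (∀ C ∈ CC, ∀ᶠ N : ℕ in atTop, rv (germ q v w N) ∉ ocone C) → Cov CC q v w

/-- All labelings of a list of lists, as lists of labeled elements. -/
def labs {r t : ℕ} : List (List (Fin r × V)) → List (List (Fin t × Fin r × V))
  | [] => [[]]
  | C :: L => (List.finRange t).flatMap
      (fun a => (labs L).map (fun K => C.map (fun e => (a, e)) ++ K))

/-- The union of the linear sets of a list. -/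
def US {n : ℕ} (S : List ((Fin n → ℕ) × List (Fin n → ℕ))) : Set (Fin n → ℕ) :=
  {k | ∃ p ∈ S, ∃ c : Fin p.2.length → ℕ, k = p.1 + ∑ i, c i • p.2.get i}

/-- The sum of all entries. -/
def wt {n : ℕ} (S : List ((Fin n → ℕ) × List (Fin n → ℕ))) : ℕ :=
  (S.map (fun p => (∑ j, p.1 j) + (p.2.map (fun r => ∑ j, r j)).sum)).sum

/-- The bound for small witnesses. -/
def bnd (n : ℕ) (S : List ((Fin n → ℕ) × List (Fin n → ℕ))) : ℕ :=
  2 ^ 2 ^ (S.length * (wt S + 1) ^ n)

/-- A list of lists as a set of sets. -/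
def fin (L : List (List V)) : Finset (Finset V) := (L.map List.toFinset).toFinset

/-- The generators of a cone that contains a germ. -/
def gcone (M : ℕ) (q v w : V) : List V :=
  [q, fun j => M * q j + v j, fun j => M ^ 2 * q j + M * v j + w j]

/-- Multiples. -/
def sc (N : ℕ) (L : List V) : List V := L.map (fun k j => N * k j)

/-- Certificates for sets that are not finite unions of stratified linear sets: the base point
`u - u'`, the germ, the multiplier and the depth, the base of the white cone, the black cones with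
their bases. -/
abbrev Cert := (V × V) × (V × V × V) × (ℕ × ℕ) × V × List (V × List V)

/-- Valid certificates. -/
def CertOK (S : List (V × List V)) (c : Cert) : Prop :=
  1 ≤ c.2.2.1.1 ∧ (∀ j, 0 < c.2.1.1 j + c.2.1.2.1 j + c.2.1.2.2 j) ∧
    (∀ j, c.2.2.2.1 j + c.1.2 j =
      c.1.1 j + c.2.2.1.1 * (gcone c.2.2.1.2 c.2.1.1 c.2.1.2.1 c.2.1.2.2).sum j) ∧
    US [(c.2.2.2.1, sc c.2.2.1.1 (gcone c.2.2.1.2 c.2.1.1 c.2.1.2.1 c.2.1.2.2))] ⊆ US S ∧
    (∀ b ∈ c.2.2.2.2, (∀ j, b.1 j + c.1.2 j = c.1.1 j + c.2.2.1.1 * b.2.sum j) ∧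
      (∀ j, 0 < b.2.sum j) ∧ Disjoint (US [(b.1, sc c.2.2.1.1 b.2)]) (US S)) ∧
    ¬ RCov (fin (c.2.2.2.2.map Prod.snd)) c.2.1.1 c.2.1.2.1 c.2.1.2.2

/-- The linear set with base `c` and set of periods `P`. -/
def Lin (c : V) (P : Finset V) : Set V :=
  {x | ∃ n : V → ℕ, x = c + ∑ p ∈ P, n p • p}

/-- An integer vector as a real vector. -/
def iv (z : Z3) : R3 := fun j => (z j : ℝ)

/-- Every integer functional that has an integer value at `U` in the profinite sense has this value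
at `x₀`. -/
def Cent (U : Filter V) (x₀ : Z3) : Prop :=
  ∀ (h : Z3) (ξ : ℤ), (∀ N : ℕ, 0 < N → ∀ᶠ x in U, (N : ℤ) ∣ h ⬝ᵥ zv x - ξ) → h ⬝ᵥ x₀ = ξ

/-- The points `x₀ + m t y` belong to `X` for all large `t`. -/
def White (X : Set V) (x₀ : Z3) (m : ℕ) (y : V) : Prop :=
  ∀ᶠ t : ℕ in atTop, ∀ x : V, zv x = x₀ + ((m * t : ℕ) : ℤ) • zv y → x ∈ X

/-- The shift by `x₀`. -/
def sh (x₀ : Z3) (x : V) : V := fun j => (x j - x₀ j : ℤ).toNat

/-- `X` is a union of classes of the equivalence given by the functionals `H`, the bound `B` and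
the modulus `m`. -/
def Tame (X : Set V) (H : Finset Z3) (B : ℤ) (m : ℕ) : Prop :=
  ∀ x x' : V, (∀ j, (m : ℤ) ∣ zv x j - zv x' j) →
    (∀ h ∈ H, h ⬝ᵥ zv x = h ⬝ᵥ zv x' ∨ (B < h ⬝ᵥ zv x ∧ B < h ⬝ᵥ zv x') ∨
      (h ⬝ᵥ zv x < -B ∧ h ⬝ᵥ zv x' < -B)) →
    (x ∈ X ↔ x' ∈ X)

end Pool.Agent.MP2a1ef3.N3
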