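import Pool.Agent.Lib.MP_2a1ef3_lc.N3.Asm
import Pool.Agent.Lib.MP_2a1ef3_lc.N3.P.mem_ocone_tri
import Pool.Agent.Lib.MP_2a1ef3_lc.N3.P.ind_tri
import Pool.Agent.Lib.MP_2a1ef3_lc.N3.P.piece_shape
import Pool.Agent.Lib.MP_2a1ef3_lc.N3.P.mem_ocone_chord
import Pool.Agent.Lib.MP_2a1ef3_lc.N3.P.fl
import Pool.Agent.Lib.MP_2a1ef3_lc.N3.P.beyond_edge
import Pool.Agent.Lib.MP_2a1ef3_lc.N3.P.bey_b
import Pool.Agent.Lib.MP_2a1ef3_lc.N3.P.bey_a
import Pool.Agent.Lib.MP_2a1ef3_lc.N3.P.lemmaX
import Pool.Agent.Lib.MP_2a1ef3_lc.N3.P.free_of_sameSign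
import Pool.Agent.Lib.MP_2a1ef3_lc.N3.P.pin_of_sameSign
import Pool.Agent.Lib.MP_2a1ef3_lc.N3.P.mem_ocone_iff_of_sameSign
import Pool.Agent.Lib.MP_2a1ef3_lc.N3.P.exists_ind_ultra
import Pool.Agent.Lib.MP_2a1ef3_lc.N3.P.ucov_of_gens
import Pool.Agent.Lib.MP_2a1ef3_lc.N3.P.ucov_corner
import Pool.Agent.Lib.MP_2a1ef3_lc.N3.P.ucov_free
import Pool.Agent.Lib.MP_2a1ef3_lc.N3.P.exists_pin_piece
import Pool.Agent.Lib.MP_2a1ef3_lc.N3.P.ucov_pin
import Pool.Agent.Lib.MP_2a1ef3_lc.N3.P.exists_lim
import Pool.Agent.Lib.MP_2a1ef3_lc.N3.P.exists_dir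
import Pool.Agent.Lib.MP_2a1ef3_lc.N3.P.exists_near
import Pool.Agent.Lib.MP_2a1ef3_lc.N3.P.line_lemma
import Pool.Agent.Lib.MP_2a1ef3_lc.N3.P.ucov_strip
import Pool.Agent.Lib.MP_2a1ef3_lc.N3.P.ucov_sector
import Pool.Agent.Lib.MP_2a1ef3_lc.N3.P.exists_generic
import Pool.Agent.Lib.MP_2a1ef3_lc.N3.P.germ_lex
import Pool.Agent.Lib.MP_2a1ef3_lc.N3.P.germ_span
import Pool.Agent.Lib.MP_2a1ef3_lc.N3.P.germ_sameSign
import Pool.Agent.Lib.MP_2a1ef3_lc.N3.P.edge_T
import Pool.Agent.Lib.MP_2a1ef3_lc.N3.P.edge_V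
import Pool.Agent.Lib.MP_2a1ef3_lc.N3.P.edge1
import Pool.Agent.Lib.MP_2a1ef3_lc.N3.P.ray_case
import Pool.Agent.Lib.MP_2a1ef3_lc.N3.P.regime1
import Pool.Agent.Lib.MP_2a1ef3_lc.N3.P.regime2a
import Pool.Agent.Lib.MP_2a1ef3_lc.N3.P.edge2
import Pool.Agent.Lib.MP_2a1ef3_lc.N3.P.regime2b
import Pool.Agent.Lib.MP_2a1ef3_lc.N3.P.geo
import Pool.Agent.Lib.MP_2a1ef3_lc.N3.P.rcov_hex
import Pool.Agent.Lib.MP_2a1ef3_lc.N3.P.rcov_face
import Pool.Agent.Lib.MP_2a1ef3_lc.N3.P.rcov_chord
import Pool.Agent.Lib.MP_2a1ef3_lc.N3.P.rcov_of_cov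
import Pool.Agent.Lib.MP_2a1ef3_lc.N3.P.dl
import Pool.Agent.Lib.MP_2a1ef3_lc.N3.P.n1_near
import Pool.Agent.Lib.MP_2a1ef3_lc.N3.P.n1_rigid
import Pool.Agent.Lib.MP_2a1ef3_lc.N3.P.n1_step
import Pool.Agent.Lib.MP_2a1ef3_lc.N3.P.n1_final
import Pool.Agent.Lib.MP_2a1ef3_lc.N3.P.n1_rat
import Pool.Agent.Lib.MP_2a1ef3_lc.N3.P.n2_rat
import Pool.Agent.Lib.MP_2a1ef3_lc.N3.P.exists_ind_germ
import Pool.Agent.Lib.MP_2a1ef3_lc.N3.P.cov_of_gens
import Pool.Agent.Lib.MP_2a1ef3_lc.N3.P.hexcone
import Pool.Agent.Lib.MP_2a1ef3_lc.N3.P.stripcone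
import Pool.Agent.Lib.MP_2a1ef3_lc.N3.P.cov_n1
import Pool.Agent.Lib.MP_2a1ef3_lc.N3.P.cov_n2
import Pool.Agent.Lib.MP_2a1ef3_lc.N3.P.sa_nat
import Pool.Agent.Lib.MP_2a1ef3_lc.N3.P.helly_pts
import Pool.Agent.Lib.MP_2a1ef3_lc.N3.P.mem_labs
import Pool.Agent.Lib.MP_2a1ef3_lc.N3.P.primrec_labs
import Pool.Agent.Lib.MP_2a1ef3_lc.N3.P.forall_tuple
import Pool.Agent.Lib.MP_2a1ef3_lc.N3.P.dt_tuple
import Pool.Agent.Lib.MP_2a1ef3_lc.N3.P.dt_main
import Pool.Agent.Lib.MP_2a1ef3_lc.N3.P.dec_n1
import Pool.Agent.Lib.MP_2a1ef3_lc.N3.P.dec_n2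
import Pool.Agent.Lib.MP_2a1ef3_lc.N3.P.dec_n2p
import Pool.Agent.Lib.MP_2a1ef3_lc.N3.P.dec_n3
import Pool.Agent.Lib.MP_2a1ef3_lc.N3.P.small_witness
import Pool.Agent.Lib.MP_2a1ef3_lc.N3.P.us_primrec
import Pool.Agent.Lib.MP_2a1ef3_lc.N3.P.bnd_primrec
import Pool.Agent.Lib.MP_2a1ef3_lc.N3.P.us_rel_primrec
import Pool.Agent.Lib.MP_2a1ef3_lc.N3.P.re_exists
import Pool.Agent.Lib.MP_2a1ef3_lc.N3.P.strat_lin
import Pool.Agent.Lib.MP_2a1ef3_lc.N3.P.us_lin
import Pool.Agent.Lib.MP_2a1ef3_lc.N3.P.strat_le_two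
import Pool.Agent.Lib.MP_2a1ef3_lc.N3.P.re_strat
import Pool.Agent.Lib.MP_2a1ef3_lc.N3.P.lin_ind
import Pool.Agent.Lib.MP_2a1ef3_lc.N3.P.ocone_meet
import Pool.Agent.Lib.MP_2a1ef3_lc.N3.P.extract
import Pool.Agent.Lib.MP_2a1ef3_lc.N3.P.cert_sound
import Pool.Agent.Lib.MP_2a1ef3_lc.N3.P.re_cert
import Pool.Agent.Lib.MP_2a1ef3_lc.N3.P.tame_lin
import Pool.Agent.Lib.MP_2a1ef3_lc.N3.P.tame_us
import Pool.Agent.Lib.MP_2a1ef3_lc.N3.P.exists_ultra
import Pool.Agent.Lib.MP_2a1ef3_lc.N3.P.exists_center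
import Pool.Agent.Lib.MP_2a1ef3_lc.N3.P.trich
import Pool.Agent.Lib.MP_2a1ef3_lc.N3.P.sh_spec
import Pool.Agent.Lib.MP_2a1ef3_lc.N3.P.white_congr
import Pool.Agent.Lib.MP_2a1ef3_lc.N3.P.white_unif
import Pool.Agent.Lib.MP_2a1ef3_lc.N3.P.white_ultra
import Pool.Agent.Lib.MP_2a1ef3_lc.N3.P.cl
import Pool.Agent.Lib.MP_2a1ef3_lc.N3.P.dec_cones
import Pool.Agent.Lib.MP_2a1ef3_lc.N3.P.sign_ocone
import Pool.Agent.Lib.MP_2a1ef3_lc.N3.P.germ_cone
import Pool.Agent.Lib.MP_2a1ef3_lc.N3.P.cert_of_germ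
import Pool.Agent.Lib.MP_2a1ef3_lc.N3.P.cert_complete

/-!
Context-freeness of bounded semilinear languages is decidable in dimension at most three.
-/

set_option autoImplicit false

namespace Pool.Agent.MP2a1ef3.N3

private theorem r_mem_ocone_tri : S_mem_ocone_tri := p_mem_ocone_tri
private theorem r_ind_tri : S_ind_tri := p_ind_tri
private theorem r_piece_shape : S_piece_shape := p_piece_shape
private theorem r_mem_ocone_chord : S_mem_ocone_chord := p_mem_ocone_chord
private theorem r_fl : S_fl := p_fl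
private theorem r_beyond_edge : S_beyond_edge := p_beyond_edge r_fl r_mem_ocone_tri
private theorem r_bey_b : S_bey_b := p_bey_b
private theorem r_bey_a : S_bey_a := p_bey_a
private theorem r_lemmaX : S_lemmaX := p_lemmaX r_beyond_edge r_bey_a r_bey_b
private theorem r_free_of_sameSign : S_free_of_sameSign := p_free_of_sameSign
private theorem r_pin_of_sameSign : S_pin_of_sameSign := p_pin_of_sameSign
private theorem r_mem_ocone_iff_of_sameSign : S_mem_ocone_iff_of_sameSign := p_mem_ocone_iff_of_sameSign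
private theorem r_exists_ind_ultra : S_exists_ind_ultra := p_exists_ind_ultra
private theorem r_ucov_of_gens : S_ucov_of_gens := p_ucov_of_gens r_exists_ind_ultra
private theorem r_ucov_corner : S_ucov_corner := p_ucov_corner r_ucov_of_gens
private theorem r_ucov_free : S_ucov_free := p_ucov_free r_ucov_of_gens
private theorem r_exists_pin_piece : S_exists_pin_piece := p_exists_pin_piece r_mem_ocone_tri r_ind_tri
private theorem r_ucov_pin : S_ucov_pin := p_ucov_pin r_exists_pin_piece r_mem_ocone_tri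
private theorem r_exists_lim : S_exists_lim := p_exists_lim
private theorem r_exists_dir : S_exists_dir := p_exists_dir
private theorem r_exists_near : S_exists_near := p_exists_near
private theorem r_line_lemma : S_line_lemma := p_line_lemma
private theorem r_ucov_strip : S_ucov_strip := p_ucov_strip r_ucov_of_gens
private theorem r_ucov_sector : S_ucov_sector := p_ucov_sector r_exists_pin_piece r_mem_ocone_tri
private theorem r_exists_generic : S_exists_generic := p_exists_generic
private theorem r_germ_lex : S_germ_lex := p_germ_lex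
private theorem r_germ_span : S_germ_span := p_germ_span
private theorem r_germ_sameSign : S_germ_sameSign := p_germ_sameSign
private theorem r_edge_T : S_edge_T := p_edge_T
private theorem r_edge_V : S_edge_V := p_edge_V
private theorem r_edge1 : S_edge1 := p_edge1 r_edge_T r_edge_V r_lemmaX r_free_of_sameSign r_pin_of_sameSign r_ucov_corner r_ucov_free r_ucov_pin r_germ_lex
private theorem r_ray_case : S_ray_case := p_ray_case r_exists_generic
private theorem r_regime1 : S_regime1 := p_regime1 r_ray_case r_exists_near r_exists_generic r_germ_sameSign r_mem_ocone_iff_of_sameSign r_piece_shape r_germ_span r_mem_ocone_chord r_mem_ocone_tri r_edge1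
private theorem r_regime2a : S_regime2a := p_regime2a r_exists_generic r_germ_sameSign r_mem_ocone_iff_of_sameSign r_piece_shape r_germ_span r_germ_lex r_mem_ocone_chord r_mem_ocone_tri r_edge_T r_edge_V
private theorem r_edge2 : S_edge2 := p_edge2 r_edge_T r_edge_V r_germ_lex r_line_lemma r_beyond_edge r_bey_a r_bey_b r_ucov_strip r_ucov_sector
private theorem r_regime2b : S_regime2b := p_regime2b r_exists_generic r_germ_sameSign r_mem_ocone_iff_of_sameSign r_piece_shape r_germ_span r_mem_ocone_tri r_edge2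
private theorem r_geo : S_geo := p_geo r_exists_lim r_exists_dir r_ray_case r_regime1 r_regime2a r_regime2b
private theorem r_rcov_hex : S_rcov_hex := p_rcov_hex r_beyond_edge r_germ_lex r_mem_ocone_tri
private theorem r_rcov_face : S_rcov_face := p_rcov_face r_beyond_edge r_germ_lex r_mem_ocone_tri r_edge_T
private theorem r_rcov_chord : S_rcov_chord := p_rcov_chord r_germ_span
private theorem r_rcov_of_cov : S_rcov_of_cov := p_rcov_of_cov r_piece_shape r_rcov_hex r_rcov_face r_rcov_chord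
private theorem r_dl : S_dl := p_dl
private theorem r_n1_near : S_n1_near := p_n1_near
private theorem r_n1_rigid : S_n1_rigid := p_n1_rigid
private theorem r_n1_step : S_n1_step := p_n1_step r_n1_near
private theorem r_n1_final : S_n1_final := p_n1_final r_n1_near
private theorem r_n1_rat : S_n1_rat := p_n1_rat r_dl r_n1_near r_n1_rigid r_n1_step r_n1_final
private theorem r_n2_rat : S_n2_rat := p_n2_rat r_dl
private theorem r_exists_ind_germ : S_exists_ind_germ := p_exists_ind_germ
private theorem r_cov_of_gens : S_cov_of_gens := p_cov_of_gens r_exists_ind_germ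
private theorem r_hexcone : S_hexcone := p_hexcone
private theorem r_stripcone : S_stripcone := p_stripcone
private theorem r_cov_n1 : S_cov_n1 := p_cov_n1 r_n1_rat r_hexcone r_cov_of_gens r_germ_lex
private theorem r_cov_n2 : S_cov_n2 := p_cov_n2 r_n2_rat r_stripcone r_cov_of_gens r_germ_lex
private theorem r_sa_nat : S_sa_nat := p_sa_nat
private theorem r_helly_pts : S_helly_pts := p_helly_pts
private theorem r_mem_labs : S_mem_labs := p_mem_labs
private theorem r_primrec_labs : S_primrec_labs := p_primrec_labs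
private theorem r_forall_tuple : S_forall_tuple := p_forall_tuple
private theorem r_dt_tuple : S_dt_tuple := p_dt_tuple r_sa_nat
private theorem r_dt_main : S_dt_main := p_dt_main r_sa_nat r_helly_pts r_mem_labs r_primrec_labs r_forall_tuple r_dt_tuple
private theorem r_dec_n1 : S_dec_n1 := p_dec_n1 r_dt_main
private theorem r_dec_n2 : S_dec_n2 := p_dec_n2 r_dt_main
private theorem r_dec_n2p : S_dec_n2p := p_dec_n2p r_dt_main
private theorem r_dec_n3 : S_dec_n3 := p_dec_n3 r_dt_main
private theorem r_small_witness : S_small_witness := p_small_witness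
private theorem r_us_primrec : S_us_primrec := p_us_primrec
private theorem r_bnd_primrec : S_bnd_primrec := p_bnd_primrec
private theorem r_us_rel_primrec : S_us_rel_primrec := p_us_rel_primrec r_small_witness r_us_primrec r_bnd_primrec
private theorem r_re_exists : S_re_exists := p_re_exists
private theorem r_strat_lin : S_strat_lin := p_strat_lin
private theorem r_us_lin : S_us_lin := p_us_lin
private theorem r_strat_le_two : S_strat_le_two := p_strat_le_two
private theorem r_re_strat : S_re_strat := p_re_strat r_strat_lin r_us_lin r_us_rel_primrec r_re_exists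
private theorem r_lin_ind : S_lin_ind := p_lin_ind
private theorem r_ocone_meet : S_ocone_meet := p_ocone_meet
private theorem r_extract : S_extract := p_extract
private theorem r_cert_sound : S_cert_sound := p_cert_sound r_strat_lin r_lin_ind r_extract r_ocone_meet r_rcov_of_cov
private theorem r_re_cert : S_re_cert := p_re_cert r_re_exists r_us_rel_primrec r_dec_n1 r_dec_n2 r_dec_n2p r_dec_n3
private theorem r_tame_lin : S_tame_lin := p_tame_lin
private theorem r_tame_us : S_tame_us := p_tame_us r_us_lin r_lin_ind r_tame_lin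
private theorem r_exists_ultra : S_exists_ultra := p_exists_ultra r_strat_lin
private theorem r_exists_center : S_exists_center := p_exists_center
private theorem r_trich : S_trich := p_trich
private theorem r_sh_spec : S_sh_spec := p_sh_spec r_trich
private theorem r_white_congr : S_white_congr := p_white_congr
private theorem r_white_unif : S_white_unif := p_white_unif
private theorem r_white_ultra : S_white_ultra := p_white_ultra r_trich r_sh_spec
private theorem r_cl : S_cl := p_cl r_trich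
private theorem r_dec_cones : S_dec_cones := p_dec_cones
private theorem r_sign_ocone : S_sign_ocone := p_sign_ocone
private theorem r_germ_cone : S_germ_cone := p_germ_cone
private theorem r_cert_of_germ : S_cert_of_germ := p_cert_of_germ r_white_congr r_white_unif r_sign_ocone r_germ_cone r_cov_n1 r_cov_n2
private theorem r_cert_complete : S_cert_complete := p_cert_complete r_tame_us r_exists_ultra r_exists_center r_sh_spec r_white_ultra r_dec_cones r_sign_ocone r_white_congr r_cl r_geo r_cert_of_germ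

/-- Context-freeness of bounded semilinear languages is decidable in dimension at most three. -/
theorem main (n : ℕ) (hn : n ≤ 3) :
    ComputablePred (fun S : List ((Fin n → ℕ) × List (Fin n → ℕ)) =>
      (langOf (US S)).IsContextFree) :=
  asm_main r_re_strat r_re_cert r_cert_sound r_cert_complete r_strat_le_two n hn

end Pool.Agent.MP2a1ef3.N3
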