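import Pool.Agent.Lib.MP_2a1ef3_lc.N3.Defs
import Pool.Agent.Lib.MP_42de19_nt.Semialg

/-!
Statements of the pieces for the decidability of context-freeness in dimension three
(MP_2a1ef3_lc), with proofs in words.
-/

set_option autoImplicit false
set_option linter.unusedVariables false

namespace Pool.Agent.MP2a1ef3.N3

open Filter

/-! # Basic linear algebra -/

/-- Write `x = l_a a + l_b b + l_c c` (Cramer); `dt a b x = l_c D`, `dt b c x = l_a D`,
`dt c a x = l_b D` with `D = dt a b c > 0`. The three vectors are distinct. -/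
def S_mem_ocone_tri : Prop :=
  ∀ {a b c : V} (h : 0 < dt (rv a) (rv b) (rv c)) (x : R3),
    x ∈ ocone {a, b, c} ↔
      0 < dt (rv a) (rv b) x ∧ 0 < dt (rv b) (rv c) x ∧ 0 < dt (rv c) (rv a) x


/-- Cramer. -/
def S_ind_tri : Prop :=
  ∀ {a b c : V} (h : 0 < dt (rv a) (rv b) (rv c)),
    Ind {a, b, c}


/-- `P` has at most three elements. Zero or one element is impossible since `x > 0` (all
coordinates) and every element of `P` has a zero coordinate. Two elements: a common zero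
coordinate would be a zero coordinate of `x`. Three elements: order them so that the determinant
is positive. -/
def S_piece_shape : Prop :=
  ∀ {P : Finset V} (hB : ∀ p ∈ P, Bd p) (hI : Ind P) {x : R3}
    (hx : ∀ j, 0 < x j) (hxP : x ∈ ocone P),
    (∃ a b c : V, P = {a, b, c} ∧ 0 < dt (rv a) (rv b) (rv c)) ∨
      ∃ a b : V, a ≠ b ∧ P = {a, b} ∧ ∀ j, ¬ (a j = 0 ∧ b j = 0)


/-- `x` lies in the span of `u, v`, hence of `a, b`: `x = α a + β b`. With `a j = 0` (so
`b j > 0`) get `β > 0`, with `b j = 0` get `α > 0`. -/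
def S_mem_ocone_chord : Prop :=
  ∀ {a b : V} (hI : Ind {a, b}) (ha : Bd a) (hb : Bd b) (hab : a ≠ b)
    (h0 : ∀ j, ¬ (a j = 0 ∧ b j = 0)) {u v : R3} (hu : u ∈ Submodule.span ℝ {rv a, rv b})
    (hv : v ∈ Submodule.span ℝ {rv a, rv b}) (huv : ¬ Par u v) {x : R3} (hx : ∀ j, 0 < x j)
    (hd : dt u v x = 0),
    x ∈ ocone {a, b}


/-- With `D = dt a b c > 0`: `D x = (dt b c x) a + (dt c a x) b + (dt a b x) c`. If
`dt b c x ≤ 0` and `dt c a x ≤ 0`, take `j` with `c j = 0`: the `j`-th coordinate gives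
`D x_j ≤ 0`, a contradiction. The other two pairs in the same way. -/
def S_fl : Prop :=
  ∀ {a b c : V} (ha : Bd a) (hb : Bd b) (hc : Bd c) (h : 0 < dt (rv a) (rv b) (rv c))
    {x : R3} (hx : ∀ j, 0 < x j),
    (0 < dt (rv a) (rv b) x ∨ 0 < dt (rv b) (rv c) x) ∧
      (0 < dt (rv b) (rv c) x ∨ 0 < dt (rv c) (rv a) x) ∧
      (0 < dt (rv c) (rv a) x ∨ 0 < dt (rv a) (rv b) x)


/-- Hypothesis: `fl`, `mem_ocone_tri`. Otherwise there are `k₁, k₂, k₃ ∈ C` with positive values
of the three functionals `f₁, f₂, f₃`. Let `s = ∑ C` (all coordinates positive, `s ∈ ocone C`).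
By `fl` at most one of `f₁ s, f₂ s, f₃ s` is `≤ 0`. If none, `s` is in both cones. If `f₁ s ≤ 0`
let `t₀ = - f₁ s / f₁ k₁ ≥ 0`; at `x₀ = s + t₀ k₁` we have `f₁ = 0`, so by `fl` the other two are
positive there, and so they are at `s + t k₁` for `t` slightly larger than `t₀`, where `f₁ > 0`.
This point is in both cones. -/
def S_beyond_edge : Prop :=
  ∀ {a b c : V} (ha : Bd a) (hb : Bd b) (hc : Bd c)
    (h : 0 < dt (rv a) (rv b) (rv c)) {C : Finset V} (hG : ∀ j, ∃ k ∈ C, 0 < k j)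
    (hd : Disjoint (ocone {a, b, c}) (ocone C)),
    (∀ k ∈ C, dt (rv a) (rv b) (rv k) ≤ 0) ∨ (∀ k ∈ C, dt (rv b) (rv c) (rv k) ≤ 0) ∨
      (∀ k ∈ C, dt (rv c) (rv a) (rv k) ≤ 0)


/-- Let `b j = 0`, so `a j > 0`. `D k_j = (dt b c k) a_j + (dt a b k) c_j ≥ 0`. If `c_j = 0` then
`k_j = 0` for all `k ∈ C`, contradicting `hG`. So `c_j > 0` and `dt a b k ≥ 0`; if it is `0`, then
`dt b c k = 0` too, so `D k = (dt c a k) b`. -/
def S_bey_b : Prop :=
  ∀ {a b c : V} (hb : Bd b) (h : 0 < dt (rv a) (rv b) (rv c))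
    (hab : ∀ j, ¬ (a j = 0 ∧ b j = 0)) {C : Finset V} (hG : ∀ j, ∃ k ∈ C, 0 < k j)
    (hC : ∀ k ∈ C, dt (rv b) (rv c) (rv k) ≤ 0),
    ∀ k ∈ C, 0 ≤ dt (rv a) (rv b) (rv k) ∧
      (dt (rv a) (rv b) (rv k) = 0 → Par (rv b) (rv k))


/-- As `bey_b` with `a j = 0 < b j` and `D k_j = (dt c a k) b_j + (dt a b k) c_j`. -/
def S_bey_a : Prop :=
  ∀ {a b c : V} (ha : Bd a) (h : 0 < dt (rv a) (rv b) (rv c))
    (hab : ∀ j, ¬ (a j = 0 ∧ b j = 0)) {C : Finset V} (hG : ∀ j, ∃ k ∈ C, 0 < k j)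
    (hC : ∀ k ∈ C, dt (rv c) (rv a) (rv k) ≤ 0),
    ∀ k ∈ C, 0 ≤ dt (rv a) (rv b) (rv k) ∧
      (dt (rv a) (rv b) (rv k) = 0 → Par (rv a) (rv k))


/-! # Lemma X and invariance -/

/-- Hypotheses: `beyond_edge`, `bey_a`, `bey_b`. Let `h x = dt a b x`. By `beyond_edge`, `bey_a`,
`bey_b` each `C ∈ CC` is of type R: `h ≤ 0` on `C`, or of type L: `h ≥ 0` on `C` and all zeros of
`h` in `C` are parallel to `a` (or all are parallel to `b`). If `h` has no zero in `Vk CC`: `Free`
by `h`. Otherwise all its zeros in `Vk CC` are parallel to one `k₀ ∈ Vk CC` (`hV`), and `z` is not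
parallel to `k₀` (so `k₀ ≠ 0`). If all `C` that contain a zero are of type R: rotate, `h' = h + ε g`
with `g z = 0`, `g k₀ < 0`, `ε` small (finitely many `k`): `Free`. If all of them are of type L:
`g k₀ > 0`: `Free`. If both types occur then `k₀` is parallel to `a` or `b` (a positive multiple, so
it has the same zero coordinates). Say to `a`. Write `z = A a + B b`. `a j = 0` for some `j`, then
`b j > 0` and `z j = B b j`, so `B ≥ 0`, and `B ≠ 0` since `z` is not parallel to `a`. So for all `j`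
with `a j = 0` we have `z j = B b j > 0`, and `dt k₀ z x = c B dt a b x` with `c > 0`:
`Pin` with `k₀`. If `k₀` is parallel to `b`: `A > 0` and `dt k₀ z x = - c A dt a b x`. -/
def S_lemmaX : Prop :=
  ∀ {CC : Finset (Finset V)} (hG : Good CC) {a b c : V}
    (hP : Piece CC {a, b, c}) (h : 0 < dt (rv a) (rv b) (rv c))
    (hab : ∀ j, ¬ (a j = 0 ∧ b j = 0)) {z : R3} (hz : ∀ j, 0 ≤ z j) (hz0 : z ≠ 0)
    (hz1 : dt (rv a) (rv b) z = 0) (hz2 : ∀ k ∈ Vk CC, ¬ Par (rv k) z)
    (hV : ∀ k ∈ Vk CC, ∀ k' ∈ Vk CC, dt (rv a) (rv b) (rv k) = 0 →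
      dt (rv a) (rv b) (rv k') = 0 → Par (rv k) (rv k')),
    Free CC z ∨ Pin CC z


/-- `Free CC z` gives `h` with `h z = 0` and for each `C` a strict constant sign; let
`s_k = sign (h k) ≠ 0` for `k ∈ Vk CC`. Suppose that no `h'` with `h' p = 0` has
`s_k h' k > 0` for all `k ∈ Vk CC`. By Gordan / Farkas (in the plane of functionals that vanish
at `p`) a nontrivial nonnegative combination of the `s_k k` is a multiple `c p`. `c = 0` is
impossible (apply `h`). So `p` or `-p` is in the cone generated by the `s_k k`; take a minimal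
subset `S` of `Vk CC`: `S` is linearly independent and `± p = ∑_{k ∈ S} l_k s_k k`, `l_k > 0`, and
`S` is not empty since `p ≠ 0`. Claim: `z = ∑_{k ∈ S} r'_k k` with
`sign r'_k = sign (± s_k)`; then `h z = ∑ r'_k h k` is not zero, a contradiction. `|S| = 3`: Cramer,
the coefficients are quotients `dt z k' k'' / dt k k' k''`, and `SameSign`. `|S| = 2`,
`S = {k, k'}`: `dt k k' p = 0` so `dt k k' z = 0`; with a unit vector `e` such that
`dt k k' e ≠ 0` the coefficients are `dt z k' e / dt k k' e` and `dt k z e / dt k k' e`; all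
these functionals are those of pairs of `VV CC`. `|S| = 1`: `dt k e p = 0` for all unit vectors `e`,
so the same for `z`, so `z = r' k`; the sign of `r'` is read off from a coordinate
`dt e e' z = ± z j` with `k j > 0`. -/
def S_free_of_sameSign : Prop :=
  ∀ {CC : Finset (Finset V)} {z p : R3} (hp : p ≠ 0)
    (hs : SameSign CC z p) (h : Free CC z),
    Free CC p


/-- The same `a`: `dt a z k = - dt a k z` has the same sign as `dt a p k` (`a, k ∈ VV CC`), and
`z j ≠ 0` iff `p j ≠ 0` (unit vectors). -/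
def S_pin_of_sameSign : Prop :=
  ∀ {CC : Finset (Finset V)} {z p : R3}
    (hs : SameSign CC z p) (h : Pin CC z),
    Pin CC p


/-- `|C| ≤ 3`. Membership of `z` in `ocone C` is determined by the signs of `dt k k' z`,
`k, k' ∈ VV CC`, see the proof of `free_of_sameSign`: `|C| = 3`: signs of `dt z k' k''` compared with
`dt k k' k''`; `|C| = 2`: `dt k k' z = 0` and the signs of `dt z k' e`, `dt k z e` compared with
`dt k k' e` for a unit vector `e` with `dt k k' e ≠ 0`; `|C| = 1`: `dt k e z = 0` for all unit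
vectors and `z j > 0` for a `j` with `k j > 0`; `|C| = 0`: `z = 0`, all coordinates are zero. -/
def S_mem_ocone_iff_of_sameSign : Prop :=
  ∀ {CC : Finset (Finset V)} {C : Finset V} (hC : C ∈ CC)
    (hI : Ind C) {z z' : R3} (hs : SameSign CC z z'),
    z ∈ ocone C ↔ z' ∈ ocone C


/-! # Pieces for filters -/

/-- Caratheodory: `ccone G` is the union of the `ocone P`, `P ⊆ G` independent; finitely many `P`,
so an ultrafilter contains one of them. -/
def S_exists_ind_ultra : Prop :=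
  ∀ {G : Finset V} {F : Ultrafilter V}
    (h : ∀ᶠ x in (F : Filter V), rv x ∈ ccone G),
    ∃ P ⊆ G, Ind P ∧ ∀ᶠ x in (F : Filter V), rv x ∈ ocone P


/-- Hypothesis: `exists_ind_ultra`. Take the `P` given there. For `C ∈ CC` take `f`; there is an
`x` with `rv x ∈ ocone P` and `f x > 0`, so `f g > 0` for some `g ∈ P`, so `f > 0` on `ocone P`,
while `f ≤ 0` on `ocone C`. -/
def S_ucov_of_gens : Prop :=
  ∀ {CC : Finset (Finset V)} {G : Finset V} {F : Ultrafilter V}
    (hB : ∀ g ∈ G, Bd g) (h : ∀ᶠ x in (F : Filter V), rv x ∈ ccone G)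
    (hC : ∀ C ∈ CC, ∃ f : R3, (∀ g ∈ G, 0 ≤ dp f (rv g)) ∧ (∀ k ∈ C, dp f (rv k) ≤ 0) ∧
      ∀ᶠ x in (F : Filter V), 0 < dp f (rv x)),
    UCov CC F


/-- Hypothesis: `ucov_of_gens`. `G = {e_i, R e_i + e_j, R e_i + e_l}` and
`f x = x_i - R (x_j + x_l)`, `R` so large that `k_i ≤ R (k_j + k_l)` for all `k ∈ Vk CC` (these `k`
are not zero and not multiples of `e_i`, so `k_j + k_l > 0`). -/
def S_ucov_corner : Prop :=
  ∀ {CC : Finset (Finset V)} {F : Ultrafilter V}
    (hF : ∀ᶠ x in (F : Filter V), Pos x) (i : Fin 3) (hL : Lim F (rv (ev i)))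
    (hV : ∀ k ∈ Vk CC, ¬ Par (rv k) (rv (ev i))),
    UCov CC F


/-- Hypothesis: `ucov_of_gens`. Let `h` be the functional of `Free CC p`. Perturb it slightly (still
`h p = 0` and strict on the finitely many `k`) such that all `h e_i ≠ 0`: possible since no `e_i`
is parallel to `p`. As `h p = 0`, `p ≥ 0`, `p ≠ 0`, the three values do not have the same sign, so up
to a factor (which may be negative) `h x = x_i - s_j x_j - s_l x_l` with `s_j, s_l > 0`.
Take rationals `s⁻_j < s_j < s⁺_j`, `s⁻_l < s_l < s⁺_l` very close, `s⁻ > 0`. `G` = natural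
multiples of `s^±_j e_i + e_j`, `s^±_l e_i + e_l`. Every `x ≥ 0` with
`f⁺ x = s⁺_j x_j + s⁺_l x_l - x_i ≥ 0` and `f⁻ x = x_i - s⁻_j x_j - s⁻_l x_l ≥ 0` is in `ccone G`.
`f^± ≥ 0` on `G`, `f^± p > 0` (as `p_j + p_l > 0`), so `f^± x > 0` for almost all `x`. If `h > 0` on
`C` then `f⁺ ≤ 0` on `C`, if `h < 0` on `C` then `f⁻ ≤ 0` on `C` (for `s^±` close to `s`). -/
def S_ucov_free : Prop :=
  ∀ {CC : Finset (Finset V)} {F : Ultrafilter V}
    (hF : ∀ᶠ x in (F : Filter V), Pos x) {p : R3} (hp : ∀ j, 0 ≤ p j)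
    (hp0 : ∀ i, ¬ Par (rv (ev i)) p) (hL : Lim F p) (h : Free CC p),
    UCov CC F


/-- Hypotheses: `mem_ocone_tri`, `ind_tri`. Let `g x = dt a z x`, so `g ≠ 0` (`a` and `z` have no common zero coordinate, `a` has one and
`a ≠ 0`, so they are not parallel). Let `t₀ ≥ 0` be maximal with `b = z - t₀ a ≥ 0`. Then `b ≥ 0`,
`b ≠ 0`, `b_{j₀} = 0` for some `j₀` with `a_{j₀} > 0`, and `b_j = z_j > 0` if `a_j = 0`. `b₁, b₂` will
be natural multiples of rational boundary vectors close to `b` with `g b₁ < 0 < g b₂`.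
Case 1: `b` has exactly one zero coordinate `j₀`. Take `b₁, b₂` close to `b` in the plane
`x_{j₀} = 0`, where `g` is not identically zero (otherwise `g = const x_{j₀}`, but `g a = 0`).
Case 2: `b = β e_i`. Then `a_i = 0`, so `z_i > 0`, `a = a_j e_j + a_l e_l`. If `a_l = 0` then
`z_l = 0` by `b_l = 0`, contradiction to `a_l = 0 → z_l ≠ 0`; so `a_j, a_l > 0`, and `t₀ > 0` as
`z` is not parallel to `e_i`. Take `b₁, b₂` = `e_i + ε e_j`, `e_i + ε e_l` in the suitable order;
here `dt b₁ b₂ z > 0` for small `ε > 0`.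
In both cases `dt a b₁ b₂ > 0`: (case 1) `b = α b₁ + β b₂` with `α, β > 0` and
`0 < - g b₁ = dt a b₁ b = β dt a b₁ b₂`.
Piece: `ind_tri` for independence, and for `C ∈ CC`: if all `k ∈ C` not parallel to
`a` have `dt a z k > 0` then `dt a b₂ k ≥ 0` for all `k ∈ C` (`b₂` close to `b`, finitely many `k`,
`dt a b k = dt a z k`), while `dt b₂ a x > 0` for `x ∈ ocone {a, b₁, b₂}`. Same on the other side
with `b₁`. -/
def S_exists_pin_piece : Prop :=
  ∀ {CC : Finset (Finset V)} {a : V} {z : R3} (hz : ∀ j, 0 ≤ z j)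
    (hz0 : ∀ i, ¬ Par (rv (ev i)) z) (h : PinAt CC a z),
    ∃ b₁ b₂ : V, 0 < dt (rv a) (rv b₁) (rv b₂) ∧ 0 < dt (rv a) (rv b₁) z ∧
      0 < dt (rv a) z (rv b₂) ∧ (0 < dt (rv b₁) (rv b₂) z ∨ ∃ j, b₁ j = 0 ∧ b₂ j = 0) ∧
      Piece CC {a, b₁, b₂}


/-- Hypotheses: `exists_pin_piece`, `mem_ocone_tri`. The three functionals of the triangle
`a, b₁, b₂` are positive at `p`, hence at almost all `x`; if `b₁, b₂` have the common zero coordinate
`j`, then `dt b₁ b₂ x = const x_j` with `const > 0` (value at `a`). -/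
def S_ucov_pin : Prop :=
  ∀ {CC : Finset (Finset V)} {F : Ultrafilter V}
    (hF : ∀ᶠ x in (F : Filter V), Pos x) {p : R3} (hp : ∀ j, 0 ≤ p j)
    (hp0 : ∀ i, ¬ Par (rv (ev i)) p) (hL : Lim F p) (h : Pin CC p),
    UCov CC F


/-- `p` = limit of `x / (x_0 + x_1 + x_2)` along `F` (compactness). -/
def S_exists_lim : Prop :=
  ∀ {F : Ultrafilter V} (hF : ∀ᶠ x in (F : Filter V), Pos x),
    ∃ p : R3, (∀ j, 0 ≤ p j) ∧ p ≠ 0 ∧ Lim F p


/-- Choose `i` with `k i > 0`; `x' = x - (x_i / k_i) k`, almost surely not zero; let `u` be the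
limit of `x' / |x'|`. `u ≠ 0`, `u i = 0`, and `u j ≥ 0` if `k j = 0`. Put `v = u + R k`, `R` large.
For `f` with `f k = 0`: `f v = f u`, `f x = f x'`. -/
def S_exists_dir : Prop :=
  ∀ {F : Ultrafilter V} {k : V} (hk : k ≠ 0)
    (h : ∀ᶠ x in (F : Filter V), ¬ Par (rv k) (rv x)),
    ∃ v : R3, (∀ j, 0 ≤ v j) ∧ (∀ j, 0 < k j → 0 < v j) ∧ ¬ Par (rv k) v ∧
      Dir F (rv k) v


/-- There is a rational `q` close to `p` such that every functional with rational coefficients that
vanishes at `p` vanishes at `q` (Q-basis `b_1, ..., b_m` of the span of the coordinates of `p`; move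
the `b_l` to rational numbers; or use linear algebra over `ℚ`). For `q` close enough all functionals
`dt k k'` that are not zero at `p` keep their sign. The coordinates are among them, so `q ≥ 0`.
Multiply with a natural number. -/
def S_exists_near : Prop :=
  ∀ {CC : Finset (Finset V)} {p : R3} (hp : ∀ j, 0 ≤ p j) (hp0 : p ≠ 0)
    (l : Z3) (hl : dp (fun j => (l j : ℝ)) p = 0),
    ∃ q : V, q ≠ 0 ∧ SameSign CC (rv q) p ∧ dp (fun j => (l j : ℝ)) (rv q) = 0


/-- Work modulo `k`, in a plane, where `v, x₁, k'` are nonzero vectors and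
`h` is a nonzero functional: if `h v = 0 = h x₁` then `h = c dt k v`, `ε = sign c`. Otherwise let
`r = (h x₁) v - (h v) x₁` (nonnegative coefficients, not both zero), `h r = 0`. If `r` is parallel
to `k` (mod `k` zero) then no `k'` as in the claim exists, since
`dt k k' r = (h x₁) dt k k' v - (h v) dt k k' x₁` is not zero for such `k'`. Otherwise
`h x = c dt k r x`, and `dt k r k' = - dt k k' r` has the sign of `- dt k k' v = dt k v k'`;
`ε = sign c`. -/
def S_line_lemma : Prop :=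
  ∀ {k x₁ v h : R3} (hh : dp h k = 0) (h0 : h ≠ 0) (hv : dp h v ≤ 0)
    (hx : 0 ≤ dp h x₁) (hkv : ¬ Par k v) (hkx : ¬ Par k x₁),
    ∃ ε : ℝ, (ε = 1 ∨ ε = -1) ∧ ∀ k' : R3, dt k k' v ≠ 0 →
      SignType.sign (dt k k' x₁) = SignType.sign (dt k k' v) →
      0 < ε * dp h k' * dt k v k'


/-- Hypothesis: `ucov_of_gens`. As `k > 0`, `g k = 0`, `g_i ≠ 0` for all `i`: up to a positive
factor `g x = σ (x_i - s_j x_j - s_l x_l)` with `σ = ± 1`, `s_j, s_l > 0`. Let
`g' x = σ (x_i - s'_j x_j - s'_l x_l)` with `s'` rational, close to `s`, `g' k = 0`, `g' v > 0`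
(possible: `s` moves on the rational line `s_j k_j + s_l k_l = k_i`, on which `v ↦ g' v` is not
constant because `v` is not parallel to `k`). Then `g' x > 0` for almost all `x` by `Dir`, and
`g' ≤ 0` on the `C` of the first type, if `s'` is close to `s`. Let
`g'' x = δ (x_j + x_l) - g' x` with `δ > 0` small rational: `g'' k > 0`, so `g'' x > 0` almost
surely by `Lim`, and `g'' ≤ 0` on the `C` of the second type. `σ = 1`: `G` = multiples of
`s'_j e_i + e_j`, `(s'_j + δ) e_i + e_j` and the same with `l`; `σ = -1`: with `s'_j - δ`. Points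
`x ≥ 0` with `g' x ≥ 0`, `g'' x ≥ 0` are in `ccone G`, and `g', g'' ≥ 0` on `G`. -/
def S_ucov_strip : Prop :=
  ∀ {CC : Finset (Finset V)} {F : Ultrafilter V}
    (hF : ∀ᶠ x in (F : Filter V), Pos x) {k : V} (hk : Pos k) (hL : Lim F (rv k)) {v : R3}
    (hkv : ¬ Par (rv k) v) (hD : Dir F (rv k) v) {g : R3} (hg : dp g (rv k) = 0)
    (hgv : dp g v = 0) (hgi : ∀ i, g i ≠ 0)
    (hC : ∀ C ∈ CC, (∀ k' ∈ C, Par (rv k) (rv k') ∨ dp g (rv k') < 0) ∨
      (∀ k' ∈ C, 0 < dp g (rv k'))),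
    UCov CC F


/-- Hypotheses: `exists_pin_piece` (with `a = k`, `z = v`), `mem_ocone_tri`. `dt k b₁ x > 0` and
`dt b₂ k x > 0` almost surely by `Dir`, `dt b₁ b₂ x > 0` by `Lim` (`dt b₁ b₂ k = dt k b₁ b₂ > 0`). -/
def S_ucov_sector : Prop :=
  ∀ {CC : Finset (Finset V)} {F : Ultrafilter V} {k : V}
    (hL : Lim F (rv k)) {v : R3} (hv : ∀ j, 0 ≤ v j) (hv0 : ∀ i, ¬ Par (rv (ev i)) v)
    (hD : Dir F (rv k) v) (h : PinAt CC k v),
    UCov CC F


/-! # Germs -/

/-- Finitely many sign patterns. -/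
def S_exists_generic : Prop :=
  ∀ {CC : Finset (Finset V)} {F : Ultrafilter V} {p : V → Prop}
    (hp : ∀ᶠ x in (F : Filter V), p x),
    ∃ x₁, p x₁ ∧ ∀ᶠ x in (F : Filter V), SameSign CC (rv x) (rv x₁)


/-- `dp f (rv (germ q v w N)) = N ^ 2 * dp f q + N * dp f v + dp f w`. -/
def S_germ_lex : Prop :=
  ∀ {f : R3} {q v w : V},
    (lexpos (dp f (rv q)) (dp f (rv v)) (dp f (rv w)) →
      ∀ᶠ N : ℕ in atTop, 0 < dp f (rv (germ q v w N))) ∧
    ((∃ᶠ N : ℕ in atTop, 0 < dp f (rv (germ q v w N))) →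
      lexpos (dp f (rv q)) (dp f (rv v)) (dp f (rv w)))


/-- Three different values of `N`, or second differences. -/
def S_germ_span : Prop :=
  ∀ {W : Submodule ℝ R3} {q v w : V}
    (h : ∃ᶠ N : ℕ in atTop, rv (germ q v w N) ∈ W),
    rv q ∈ W ∧ rv v ∈ W ∧ rv w ∈ W


/-- The sign of a quadratic polynomial for large `N`. -/
def S_germ_sameSign : Prop :=
  ∀ {CC : Finset (Finset V)} {q u w x₁ : V}
    (h : ∀ k ∈ VV CC, ∀ k' ∈ VV CC,
      (dt (rv k) (rv k') (rv q) ≠ 0 ∧ SignType.sign (dt (rv k) (rv k') (rv q)) =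
        SignType.sign (dt (rv k) (rv k') (rv x₁))) ∨
      (dt (rv k) (rv k') (rv q) = 0 ∧
        ((dt (rv k) (rv k') (rv u) ≠ 0 ∧ SignType.sign (dt (rv k) (rv k') (rv u)) =
          SignType.sign (dt (rv k) (rv k') (rv x₁))) ∨
        (dt (rv k) (rv k') (rv u) = 0 ∧ SignType.sign (dt (rv k) (rv k') (rv w)) =
          SignType.sign (dt (rv k) (rv k') (rv x₁)))))),
    ∀ᶠ N : ℕ in atTop, SameSign CC (rv (germ q u w N)) (rv x₁)


/-- `dt a b` vanishes on the plane `x j = 0` (spanned by `a` and `b`), so it is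
`const x_j`, and `const > 0` because of `dt a b c > 0`, `c j ≥ 0`. -/
def S_edge_T : Prop :=
  ∀ {a b c : V} (h : 0 < dt (rv a) (rv b) (rv c)) {j : Fin 3} (haj : a j = 0)
    (hbj : b j = 0) {x : R3} (hx : ∀ j, 0 < x j),
    0 < dt (rv a) (rv b) x


/-- `f = c dt k k'` because `f` vanishes at `k` and `k'`. The sign of `dt k k'` is the same at
`x₁`, at the germ and at almost all `x`. -/
def S_edge_V : Prop :=
  ∀ {CC : Finset (Finset V)} {F : Filter V} {q u w x₁ : V}
    (hs : ∀ᶠ N : ℕ in atTop, SameSign CC (rv (germ q u w N)) (rv x₁))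
    (hx : ∀ᶠ x in F, SameSign CC (rv x) (rv x₁)) {f : R3} {k k' : V}
    (hk : k ∈ VV CC) (hk' : k' ∈ VV CC) (hkk : ¬ Par (rv k) (rv k'))
    (h0 : dp f (rv k) = 0) (h0' : dp f (rv k') = 0)
    (hpos : ∃ᶠ N : ℕ in atTop, 0 < dp f (rv (germ q u w N))),
    ∀ᶠ x in F, 0 < dp f (rv x)


/-! # Assembly of the geometric theorem -/

/-- Hypotheses: `edge_T`, `edge_V`, `lemmaX`, `free_of_sameSign`, `pin_of_sameSign`, `ucov_corner`,
`ucov_free`, `ucov_pin`, `germ_lex`. If `a, b` have a common zero coordinate: `edge_T`. If `dt a b`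
vanishes at two non-parallel `k, k' ∈ VV CC`: `edge_V`. If `dt a b p > 0`: `Lim`. Otherwise
`dt a b p ≤ 0 ≤ dt a b q` (`germ_lex`), and `z = (dt a b q) p - (dt a b p) q` (or `z = p` if both are
zero) is a combination with nonnegative coefficients, not both zero, with `dt a b z = 0`,
`SameSign CC z p`, `z ≥ 0`, `z ≠ 0`, and `z` is not parallel to any `k ∈ Vk CC`
(`SameSign`: `dt k e z = 0` for all unit vectors `e` would give `dt k e p = 0`, so `p` parallel to
`k`). `lemmaX` gives `Free` or `Pin` at `z`, so at `p`. If `p` is parallel to some `e_i` use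
`ucov_corner` (`Lim F p` gives `Lim F e_i` because `p` is a positive multiple; no `k ∈ Vk CC` is
parallel to `e_i`, otherwise it would be parallel to `p`), else `ucov_free`, `ucov_pin`. -/
def S_edge1 : Prop :=
  ∀ {CC : Finset (Finset V)} (hG : Good CC) {F : Ultrafilter V}
    (hF : ∀ᶠ x in (F : Filter V), Pos x) {p : R3} (hp : ∀ j, 0 ≤ p j) (hp0 : p ≠ 0)
    (hL : Lim F p) (hpk : ∀ k ∈ Vk CC, ¬ Par (rv k) p) {q x₁ w : V}
    (hq : SameSign CC (rv q) p)
    (hy : ∀ᶠ N : ℕ in atTop, SameSign CC (rv (germ q x₁ w N)) (rv x₁))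
    (hx : ∀ᶠ x in (F : Filter V), SameSign CC (rv x) (rv x₁)) {a b c : V}
    (hP : Piece CC {a, b, c}) (h : 0 < dt (rv a) (rv b) (rv c))
    (hc : ∀ᶠ N : ℕ in atTop, 0 < dt (rv a) (rv b) (rv (germ q x₁ w N))),
    (∀ᶠ x in (F : Filter V), 0 < dt (rv a) (rv b) (rv x)) ∨ UCov CC F


/-- Hypothesis: `exists_generic`. Take `x₁` generic, positive, outside of the black cones and
parallel to `x₀`. The germ `(x₁, 0, 0)` is positive and avoids the black cones, so it is covered
by a piece `P`; `x₁ ∈ ocone P`, and almost all `x` are positive multiples of `x₁`. -/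
def S_ray_case : Prop :=
  ∀ {CC : Finset (Finset V)} {F : Ultrafilter V}
    (hF : ∀ᶠ x in (F : Filter V), Pos x)
    (hB : ∀ C ∈ CC, ∀ᶠ x in (F : Filter V), rv x ∉ ocone C) (H : AllCov CC)
    (h : ∃ x₀ : V, x₀ ≠ 0 ∧ ∀ᶠ x in (F : Filter V), Par (rv x₀) (rv x)),
    UCov CC F


/-- Hypotheses: `ray_case`, `exists_near`, `exists_generic`, `germ_sameSign`,
`mem_ocone_iff_of_sameSign`, `piece_shape`, `germ_span`, `mem_ocone_chord`, `mem_ocone_tri`, `edge1`.
A0: `F` lives on a ray: `ray_case`. A1: `F` lives on the kernel of some integer `l' ≠ 0` but not on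
a ray: `l' p = 0` by `Lim`; `q` from `exists_near` for `l'`; `x₁` generic with `l' x₁ = 0`, not
parallel to `q`, outside of the black cones, positive; `w = 0`. A2: `F` lives on no rational plane:
`q` from `exists_near` for `l = 0`, `x₁` generic, not parallel to `q`, not on any of the lines
`dt k k'` (`k, k' ∈ VV CC` not parallel), `w = e_j` with `dt q x₁ w ≠ 0`. In both cases the germ
`(q, x₁, w)` has the signs of `x₁` (`germ_sameSign`: if `dt k k' q ≠ 0` then `dt k k' p` has the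
same sign and by `Lim` so has almost every `x`, so `x₁`; if `dt k k' q = 0` then `u = x₁`
decides, and if `dt k k' x₁ = 0` then `w = 0`, or `k, k'` are parallel), so it avoids the black
cones. By `H` a piece `P` covers it. `piece_shape`. Chord: `q, x₁, w` are in its span, so
`w = 0` (A1), and for almost all `x` we have `l' x = l' q = l' x₁ = 0`, so `dt q x₁ x = 0`, and
`mem_ocone_chord`. Triangle: `edge1` for the three edges (cyclic), `mem_ocone_tri`. -/
def S_regime1 : Prop :=
  ∀ {CC : Finset (Finset V)} (hI : ∀ C ∈ CC, Ind C) (hG : Good CC)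
    {F : Ultrafilter V} (hF : ∀ᶠ x in (F : Filter V), Pos x)
    (hB : ∀ C ∈ CC, ∀ᶠ x in (F : Filter V), rv x ∉ ocone C) (H : AllCov CC) {p : R3}
    (hp : ∀ j, 0 ≤ p j) (hp0 : p ≠ 0) (hL : Lim F p) (hpk : ∀ k ∈ Vk CC, ¬ Par (rv k) p),
    UCov CC F


/-- Hypotheses: `exists_generic`, `germ_sameSign`, `mem_ocone_iff_of_sameSign`, `piece_shape`,
`germ_span`, `germ_lex`, `mem_ocone_chord`, `mem_ocone_tri`, `edge_T`, `edge_V`.
`v = t kb + s k` with `t ≠ 0`. Let `u = kb` if `t > 0` and `u = R k - kb` if `t < 0`, `R` large (if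
`k j = 0` then `v j = t kb j ≥ 0`, so `kb j = 0`). Then `u` is not parallel to `k`, and `f u`
and `f v` have the same sign for every functional `f` with `f k = 0`. `x₁` generic (positive, outside
of the black cones), germ `(k, u, x₁)`: its signs are those of `x₁` (`germ_sameSign`, `Lim`,
`Dir`). A piece `P` covers it. Chord: `k, u, x₁` in its span, so `dt k u x₁ = 0`, so
`dt k kb x₁ = 0`, so (`SameSign`) `dt k kb x = 0` and `dt k u x = 0` for almost all `x`:
`mem_ocone_chord`. Triangle, edge `h = dt a b`: common zero of `a, b`: `edge_T`;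
two non-parallel zeros in `VV CC`: `edge_V`; `h k > 0`: `Lim`; `h k < 0` is impossible
(`germ_lex`); `h k = 0`: `h u ≥ 0` (`germ_lex`); `h u > 0` gives `h v > 0`: `Dir`; `h u = 0`:
then `h k = h kb = 0`, `edge_V`. -/
def S_regime2a : Prop :=
  ∀ {CC : Finset (Finset V)} (hI : ∀ C ∈ CC, Ind C)
    {F : Ultrafilter V} (hF : ∀ᶠ x in (F : Filter V), Pos x)
    (hB : ∀ C ∈ CC, ∀ᶠ x in (F : Filter V), rv x ∉ ocone C) (H : AllCov CC) {k : V}
    (hk : k ∈ Vk CC) (hk0 : k ≠ 0) (hL : Lim F (rv k)) {v : R3} (hv : ∀ j, 0 ≤ v j)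
    (hkv : ¬ Par (rv k) v) (hD : Dir F (rv k) v) {kb : V} (hkb : kb ∈ VV CC)
    (hkkb : ¬ Par (rv k) (rv kb)) (h0 : dt (rv k) (rv kb) v = 0),
    UCov CC F


/-- Hypotheses: `edge_T`, `edge_V`, `germ_lex`, `line_lemma`, `beyond_edge`, `bey_a`, `bey_b`,
`ucov_strip`, `ucov_sector`. `h = dt a b`. Common zero of `a, b`: `edge_T`. Two non-parallel zeros in
`VV CC`: `edge_V`. `h k > 0`: `Lim`; `h k < 0` is impossible by `germ_lex`. So `h k = 0` and
`h x₁ ≥ 0` (`germ_lex`). If `h v > 0`: `Dir`. Otherwise `h v ≤ 0 ≤ h x₁`. For `k' ∈ VV CC` not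
parallel to `k` we have `dt k k' v ≠ 0` (`hgen`) and `dt k k' x₁` has the same sign (by `Dir` and
`hx`). `line_lemma`: `ε`, put `g₀ x = ε dt k v x`: `g₀ k'` and `h k'` are nonzero and have the same
sign for all `k' ∈ VV CC` not parallel to `k`. Each `C ∈ CC` (`beyond_edge`): type R: `h ≤ 0` on
`C`; type L: `h ≥ 0` on `C` with zeros parallel to `a`, or `h ≥ 0` with zeros parallel to
`b` (`bey_a`, `bey_b`). Zeros of `h` in `C` are parallel to `k`. Case `k > 0`: a zero in a `C` of type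
L would be parallel to `k` and to a boundary vector, impossible; so `g₀ < 0` on `C` up to
parallels to `k`, or `g₀ > 0` on `C`: `ucov_strip` with the vector of `g₀` (`g₀ e_i ≠ 0` since
`e_i ∈ VV CC` is not parallel to `k`). Case `k` boundary: each `C` is, up to parallels to `k`,
strictly on one side of `h`, hence of `dt k v`. If `k j = 0 = v j` for some `j`, then `k, v` and two
unit vectors are in the plane `x_j = 0`, one of the unit vectors, `e`, is not parallel to `k`,
and `dt k e v = 0` contradicts `hgen`. So `PinAt CC k v`, all `v i > 0` (`hv'`), and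
`ucov_sector`. -/
def S_edge2 : Prop :=
  ∀ {CC : Finset (Finset V)} (hI : ∀ C ∈ CC, Ind C) (hG : Good CC)
    {F : Ultrafilter V}
    (hF : ∀ᶠ x in (F : Filter V), Pos x) {k : V} (hk : k ∈ Vk CC) (hk0 : k ≠ 0)
    (hL : Lim F (rv k)) {v : R3} (hv : ∀ j, 0 ≤ v j) (hv' : ∀ j, 0 < k j → 0 < v j)
    (hkv : ¬ Par (rv k) v) (hD : Dir F (rv k) v)
    (hgen : ∀ kb ∈ VV CC, ¬ Par (rv k) (rv kb) → dt (rv k) (rv kb) v ≠ 0) {x₁ w : V}
    (hkx : ¬ Par (rv k) (rv x₁))
    (hy : ∀ᶠ N : ℕ in atTop, SameSign CC (rv (germ k x₁ w N)) (rv x₁))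
    (hx : ∀ᶠ x in (F : Filter V), SameSign CC (rv x) (rv x₁)) {a b c : V}
    (hP : Piece CC {a, b, c}) (h : 0 < dt (rv a) (rv b) (rv c))
    (hc : ∀ᶠ N : ℕ in atTop, 0 < dt (rv a) (rv b) (rv (germ k x₁ w N))),
    (∀ᶠ x in (F : Filter V), 0 < dt (rv a) (rv b) (rv x)) ∨ UCov CC F


/-- Hypotheses: `exists_generic`, `germ_sameSign`, `mem_ocone_iff_of_sameSign`, `piece_shape`,
`germ_span`, `mem_ocone_tri`, `edge2`. `x₁` generic (positive, outside of the black cones, not
parallel to `k`), `w = e_j` with `dt k x₁ w ≠ 0`. The germ `(k, x₁, w)` has the signs of `x₁`: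
`dt k' k'' k ≠ 0`: `Lim`. If it is `0` and `k', k''` are not parallel, then one of them, `k'` say, is
not parallel to `k`, `dt k' k''` is a nonzero multiple of `dt k k'`, which is not zero at `v`
(`hgen`) and so (`Dir`) not zero at almost all `x`, so not at `x₁`. If `k', k''` are parallel,
everything is zero. So the germ avoids the black cones and a piece covers it; it is not a chord as
`dt k x₁ w ≠ 0`. Triangle: `edge2` for the three edges. -/
def S_regime2b : Prop :=
  ∀ {CC : Finset (Finset V)} (hI : ∀ C ∈ CC, Ind C) (hG : Good CC)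
    {F : Ultrafilter V} (hF : ∀ᶠ x in (F : Filter V), Pos x)
    (hB : ∀ C ∈ CC, ∀ᶠ x in (F : Filter V), rv x ∉ ocone C) (H : AllCov CC) {k : V}
    (hk : k ∈ Vk CC) (hk0 : k ≠ 0) (hL : Lim F (rv k)) {v : R3} (hv : ∀ j, 0 ≤ v j)
    (hv' : ∀ j, 0 < k j → 0 < v j) (hkv : ¬ Par (rv k) v) (hD : Dir F (rv k) v)
    (hnp : ∀ᶠ x in (F : Filter V), ¬ Par (rv k) (rv x))
    (hgen : ∀ kb ∈ VV CC, ¬ Par (rv k) (rv kb) → dt (rv k) (rv kb) v ≠ 0),
    UCov CC F


/-- Hypotheses: `exists_lim`, `exists_dir`, `ray_case`, `regime1`, `regime2a`, `regime2b`. Assume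
that the second alternative fails, i.e. `AllCov CC`. `exists_lim`. If `p` is not parallel to any
`k ∈ Vk CC`: `regime1`. Otherwise `p = c k`, `c > 0`, `k ≠ 0` (no `C` contains `0` by `hI`), so
`Lim F k`. If almost all `x` are parallel to `k`: `ray_case`. Otherwise `exists_dir`, and `regime2a`
or `regime2b`. -/
def S_geo : Prop :=
  ∀ {CC : Finset (Finset V)} (hI : ∀ C ∈ CC, Ind C) (hG : Good CC)
    {F : Ultrafilter V} (hF : ∀ᶠ x in (F : Filter V), Pos x)
    (hB : ∀ C ∈ CC, ∀ᶠ x in (F : Filter V), rv x ∉ ocone C),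
    UCov CC F ∨ ∃ q v w : V, (∀ j, 0 < q j + v j + w j) ∧
      (∀ C ∈ CC, ∀ᶠ N : ℕ in atTop, rv (germ q v w N) ∉ ocone C) ∧ ¬ Cov CC q v w

/-! # Normal forms: from pieces to solutions -/

/-- Hypotheses: `beyond_edge`, `germ_lex`, `mem_ocone_tri`. The zero sets of `a, b, c` are nonempty
and disjoint, so each of them has exactly one element and they are different; up to cyclic
relabeling and orientation `a = (+,+,0)` etc. For `i ≠ j` let `w_ij` be the vertex whose nonzero
coordinates are `i, j` and `s i j = (w_ij)_i / (w_ij)_j`, so `s i j * s j i = 1`. `cut i (s i)` vanishes at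
the two vertices with nonzero `i`-th coordinate and is positive at the third one, so it is a
positive multiple of the edge functional (`dt a b`, `dt b c` or `dt c a`) of the edge opposite to
that vertex. So it is positive at the germ for large `N` (`germ_lex`), and `beyond_edge`. -/
def S_rcov_hex : Prop :=
  ∀ {CC : Finset (Finset V)} (hG : Good CC) {q v w a b c : V}
    (hP : Piece CC {a, b, c}) (h : 0 < dt (rv a) (rv b) (rv c))
    (hy : ∀ᶠ N : ℕ in atTop, rv (germ q v w N) ∈ ocone {a, b, c})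
    (hab : ∀ j, ¬ (a j = 0 ∧ b j = 0)) (hbc : ∀ j, ¬ (b j = 0 ∧ c j = 0))
    (hca : ∀ j, ¬ (c j = 0 ∧ a j = 0)),
    ∃ s, N1s CC q v w s


/-- Hypotheses: `beyond_edge`, `germ_lex`, `mem_ocone_tri`, `edge_T`. `a_l = b_l = 0`, so `c_l > 0`
and `c_i = 0` for some `i ≠ l`; let `j` be the third index. Order `a, b` such that
`a_j b_i < b_j a_i` (they are independent); so `a_i > 0`. `cut j` (family `j`):
`s'_i = a_j / a_i`, `s_i = b_j / b_i` (if `b_i > 0`), `s_l = s'_l = c_j / c_l`. `cut j s'` vanishes at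
`a, c` and is negative at `b`, `cut j s` vanishes at `b, c` and is positive at `a`.
If `b_i > 0`: `N2s` with `i := j`. If `b_i = 0` (`b` is a multiple of `e_j`) then
`N2p` with `cut j s'`: a `C` beyond the edge `b c` would have `k_i ≤ 0` on `C`, contradiction to
`Good`; the same for the edge `a b` and `k_l`. In both cases the edges are positive multiples of
`- cut j s'`, `cut j s` (or the coordinate `i`), and the coordinate `l`. -/
def S_rcov_face : Prop :=
  ∀ {CC : Finset (Finset V)} (hG : Good CC) {q v w a b c : V}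
    (hP : Piece CC {a, b, c}) (h : 0 < dt (rv a) (rv b) (rv c))
    (hy : ∀ᶠ N : ℕ in atTop, rv (germ q v w N) ∈ ocone {a, b, c}) {l : Fin 3}
    (hal : a l = 0) (hbl : b l = 0),
    RCov CC q v w


/-- Hypothesis: `germ_span`. Let `a_l = 0`, `b_i = 0`, so `i ≠ l`, `b_l > 0`, `a_i > 0`, `j` the third
index; `s_i = a_j / a_i`, `s_l = b_j / b_l`; `cut j s` vanishes at `a, b`, so at `q, v, w`. For
`C ∈ CC`: a point `x ∈ ocone C` has all coordinates positive (`Good`), and if `cut j s x = 0` then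
`x = (x_i / a_i) a + (x_l / b_l) b ∈ ocone {a, b}`, impossible. So `cut j s` has no zero on
`ocone C`; if it had values `> 0` and `< 0` at elements of `C` it would have a zero on `ocone C`,
and if it were `0` on `C` as well. So it is `≥ 0` on `C` and `> 0` somewhere on `C`, or the
same with the other sign. -/
def S_rcov_chord : Prop :=
  ∀ {CC : Finset (Finset V)} (hG : Good CC) {q v w a b : V} (hab : a ≠ b)
    (hP : Piece CC {a, b}) (h0 : ∀ j, ¬ (a j = 0 ∧ b j = 0))
    (hy : ∀ᶠ N : ℕ in atTop, rv (germ q v w N) ∈ ocone {a, b}),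
    ∃ i s, N3s CC q v w i s


/-- Hypotheses: `piece_shape`, `rcov_hex`, `rcov_face`, `rcov_chord`. -/
def S_rcov_of_cov : Prop :=
  ∀ {CC : Finset (Finset V)} (hG : Good CC) {q v w : V}
    (hpos : ∀ j, 0 < q j + v j + w j) (h : Cov CC q v w),
    RCov CC q v w


/-! # Rationality -/

/-- `ℚ`-basis `1, b_1, ..., b_m` of the `ℚ`-span of `1` and the `x i`; replace the `b_l` by rational
numbers close to them. -/
def S_dl : Prop :=
  ∀ {ι : Type} [Fintype ι] (x : ι → ℝ) {ε : ℝ} (hε : 0 < ε),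
    ∃ y : ι → ℚ, (∀ i, |x i - y i| < ε) ∧ ∀ (c : ι → ℚ) (d : ℚ),
      (∑ i, (c i : ℝ) * x i) + d = 0 → (∑ i, c i * y i) + d = 0


/-- All conditions of `N1L` other than the couplings `1 ≤ s i j * s j i` are `f > 0`, `f = 0`, `f ≤ 0`
for finitely many affine functionals `f` with rational coefficients of one row: those with
`f = 0` at `s` stay `0` (`RowRel`), those with `f ≠ 0` at `s` keep their sign if `δ` is small. -/
def S_n1_near : Prop :=
  ∀ {CC : Finset (Finset V)} {q v w : V} {lab : Finset V → Fin 3}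
    {s : Fin 3 → Fin 3 → ℝ} (h : N1L CC q v w lab s),
    ∃ δ : ℝ, 0 < δ ∧ ∀ s' : Fin 3 → Fin 3 → ℝ, (∀ i j, i ≠ j → |s' i j - s i j| < δ) →
      (∀ i, RowRel i (s i) (s' i)) → (∀ i j, i ≠ j → 1 ≤ s' i j * s' j i) →
      N1L CC q v w lab s'


/-- Take a solution `s` with as few tight couplings (`s i j * s j i = 1`) as possible. Let `s'` be
another solution. The midpoint `m` is a solution (every condition is convex; for
`x y ≥ 1`, `x, y > 0`: midpoints satisfy it, with equality only if both are equal and tight), so it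
has at least as many tight couplings, but a coupling tight at `m` is tight at `s` and `s'` with
equal values. So all couplings tight at `s` are tight at `m`, and `s'` has the values of `s` there. -/
def S_n1_rigid : Prop :=
  ∀ {CC : Finset (Finset V)} {q v w : V} {lab : Finset V → Fin 3}
    {s : Fin 3 → Fin 3 → ℝ} (h : N1L CC q v w lab s),
    ∃ s', Rigid CC q v w lab s'


/-- Hypothesis: `n1_near`. Consider the rational relations `c₁ s_ij + c₂ s_il + d = 0`. As `s_ij` is
irrational, either only the trivial one holds, or `s_il = A + B s_ij` with rational `A, B`, and all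
relations follow from this one. Change only row `i`. In the first case increase `s_ij` by a
small `η > 0` and keep `s_il`: again a solution (`n1_near`), contradicting rigidity. In the second
case replace `s_ij` by `s_ij + η` and `s_il` by `s_il + B η`: if `B ≥ 0`, or if `{i, l}` is not
tight (then `s_il s_li > 1` stays for small `η`), this is a solution, contradiction. So `B < 0`
and `{i, l}` is tight. -/
def S_n1_step : Prop :=
  ∀ {CC : Finset (Finset V)} {q v w : V} {lab : Finset V → Fin 3}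
    {s : Fin 3 → Fin 3 → ℝ} (h : Rigid CC q v w lab s) {i j l : Fin 3} (hij : i ≠ j)
    (hil : i ≠ l) (hjl : j ≠ l) (ht : s i j * s j i = 1) (hirr : Irrational (s i j)),
    s i l * s l i = 1 ∧ ∃ A B : ℚ, 0 < B ∧ s i l = A - B * s i j


/-- Hypothesis: `n1_near`. All values are irrational (each is `1/x` or `A - B x` with `B ≠ 0` of
another one), so in each row the given relation is the only one up to multiples. For `t` near
`s i j` put `s_ij = t`, `s_il = A₁ - B₁ t`, `s_li = 1 / s_il`, `s_lj = A₃ - B₃ s_li`,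
`s_jl = 1 / s_lj`, `s_ji = (A₂ - s_jl) / B₂`. Near the old values, all row relations hold, the
couplings `{i,l}`, `{l,j}` are tight. `t s_ji - 1 = Q(t) / (B₂ s_lj s_il)` where `Q` is a polynomial of
degree `≤ 2` with rational coefficients: `Q(t) = t (A₂ E - (A₁ - B₁ t)) - B₂ E`,
`E = A₃ (A₁ - B₁ t) - B₃ = s_lj s_il > 0`. If `Q(t) ≥ 0` for some `t ≠ s i j` arbitrarily close to
`s i j` this is a solution of `N1L` (`n1_near`), contradicting rigidity. So `Q(s i j) = 0` and `Q < 0` at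
all other points near `s i j`. So `Q = Q₂ (t - s i j)^2` with `Q₂ < 0`, so `s i j = - Q₁ / (2 Q₂)` is
rational. Contradiction. -/
def S_n1_final : Prop :=
  ∀ {CC : Finset (Finset V)} {q v w : V} {lab : Finset V → Fin 3}
    {s : Fin 3 → Fin 3 → ℝ} (h : Rigid CC q v w lab s) {i j l : Fin 3} (hij : i ≠ j)
    (hil : i ≠ l) (hjl : j ≠ l) (h1 : s i j * s j i = 1) (h2 : s i l * s l i = 1)
    (h3 : s j l * s l j = 1) {A₁ B₁ A₂ B₂ A₃ B₃ : ℚ} (hB₁ : 0 < B₁) (hB₂ : 0 < B₂)
    (hB₃ : 0 < B₃) (e1 : s i l = A₁ - B₁ * s i j) (e2 : s j l = A₂ - B₂ * s j i)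
    (e3 : s l j = A₃ - B₃ * s l i),
    ¬ Irrational (s i j)


/-- Hypotheses: `dl`, `n1_near`, `n1_rigid`, `n1_step`, `n1_final`. Labels: choose `lab C`. Take a
rigid solution `s`. Tight couplings have rational values: if `{i, j}` is tight and `s i j`
irrational, `n1_step` for `(i, j, l)`, for `(j, i, l)`, and for `(l, i, j)` (as `{i, l}` is tight and
`s l i` irrational) gives the hypotheses of `n1_final`. Apply `dl` to the entries of `s`: the
tight couplings stay (their values are rational constants), the others by closeness, and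
`n1_near`. -/
def S_n1_rat : Prop :=
  ∀ {CC : Finset (Finset V)} {q v w : V} (h : ∃ s, N1s CC q v w s),
    ∃ s : Fin 3 → Fin 3 → ℚ, N1s CC q v w (fun i j => (s i j : ℝ))


/-- Hypothesis: `dl`. All conditions are affine with rational coefficients: apply `dl` to the
entries of `s, s'`; those that are `0` stay `0`, the others keep their sign. -/
def S_n2_rat : Prop :=
  ∀ {CC : Finset (Finset V)} {q v w : V} {i : Fin 3},
    ((∃ s' s, N2s CC q v w i s' s) → ∃ s' s : Fin 3 → ℚ,
      N2s CC q v w i (fun j => (s' j : ℝ)) (fun j => (s j : ℝ))) ∧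
    ((∃ s, N2p CC q v w i s) → ∃ s : Fin 3 → ℚ, N2p CC q v w i (fun j => (s j : ℝ))) ∧
    ((∃ s, N3s CC q v w i s) → ∃ s : Fin 3 → ℚ, N3s CC q v w i (fun j => (s j : ℝ)))


/-! # Normal forms: from solutions to pieces -/

/-- Caratheodory for each `N`, finitely many subsets, so one `P` works for infinitely many `N`.
The coordinates with respect to the independent set `P` are quadratic polynomials in `N`
(three values of `N`), positive for infinitely many, so for all large `N`. -/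
def S_exists_ind_germ : Prop :=
  ∀ {G : Finset V} {q v w : V}
    (h : ∀ᶠ N : ℕ in atTop, rv (germ q v w N) ∈ ccone G),
    ∃ P ⊆ G, Ind P ∧ ∀ᶠ N : ℕ in atTop, rv (germ q v w N) ∈ ocone P


/-- Hypothesis: `exists_ind_germ`. Take this `P`. For `C ∈ CC` with `f`: `f ≥ 0` on `ocone P` and
`f ≤ 0` on `ocone C`; in the first case `f > 0` at a point of `ocone P`, so on all of it; in the
second case `f < 0` on `ocone C`. -/
def S_cov_of_gens : Prop :=
  ∀ {CC : Finset (Finset V)} {G : Finset V} {q v w : V}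
    (hB : ∀ g ∈ G, Bd g) (h : ∀ᶠ N : ℕ in atTop, rv (germ q v w N) ∈ ccone G)
    (hC : ∀ C ∈ CC, ∃ f : R3, (∀ g ∈ G, 0 ≤ dp f (rv g)) ∧ (∀ k ∈ C, dp f (rv k) ≤ 0) ∧
      ((∀ᶠ N : ℕ in atTop, 0 < dp f (rv (germ q v w N))) ∨ ∃ k ∈ C, dp f (rv k) < 0)),
    Cov CC q v w


/-- `gv i j (s i j)` is the positive multiple (by the denominator) of `s_ij e_i + e_j`. Farkas: it is
enough that every linear `f` that is `≥ 0` on these six vectors has `f x ≥ 0`. If all `f_i ≥ 0`
clear. If `f_i < 0` then `f_j ≥ - s_ij f_i` for `j ≠ i`, so `f x ≥ - f_i cut_i x ≥ 0`. -/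
def S_hexcone : Prop :=
  ∀ {s : Fin 3 → Fin 3 → ℚ} (hs : ∀ i j, i ≠ j → 0 < s i j) {x : R3}
    (hx : ∀ j, 0 ≤ x j) (hc : ∀ i, 0 ≤ cut i (fun j => (s i j : ℝ)) x),
    x ∈ ccone (((Finset.univ : Finset (Fin 3 × Fin 3)).filter (fun p => p.1 ≠ p.2)).image
      (fun p => gv p.1 p.2 (s p.1 p.2)))


/-- If `∑ s'_j x_j ≤ x_i ≤ ∑ s_j x_j` then `x_i = ∑ t_j x_j` with `s'_j ≤ t_j ≤ s_j`, and
`x = ∑ x_j (t_j e_i + e_j)`. Second claim: `x = ∑ x_j (s_j e_i + e_j) + (x_i - ∑ s_j x_j) e_i`. -/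
def S_stripcone : Prop :=
  ∀ {i : Fin 3} {s' s : Fin 3 → ℚ} (hs' : ∀ j, j ≠ i → 0 ≤ s' j)
    (hs : ∀ j, j ≠ i → s' j ≤ s j) {x : R3} (hx : ∀ j, 0 ≤ x j),
    (cut i (fun j => (s' j : ℝ)) x ≤ 0 → 0 ≤ cut i (fun j => (s j : ℝ)) x →
      x ∈ ccone (((Finset.univ.erase i).image (fun j => gv i j (s' j))) ∪
        ((Finset.univ.erase i).image (fun j => gv i j (s j))))) ∧
    (cut i (fun j => (s' j : ℝ)) x ≤ 0 →
      x ∈ ccone (insert (ev i) ((Finset.univ.erase i).image (fun j => gv i j (s' j)))))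


/-- Hypotheses: `n1_rat`, `hexcone`, `cov_of_gens`, `germ_lex`. `G` = the six vectors of
`hexcone`; they satisfy `cut_i ≥ 0`: `cut_i = 0`, `cut_j = s_ji s_ij - 1 ≥ 0`,
`cut_l = s_li s_ij + s_lj > 0` at `s_ij e_i + e_j`. For `C ∈ CC` use `f = cut_i`. -/
def S_cov_n1 : Prop :=
  ∀ {CC : Finset (Finset V)} {q v w : V} (h : ∃ s, N1s CC q v w s),
    Cov CC q v w


/-- Hypotheses: `n2_rat`, `stripcone`, `cov_of_gens`, `germ_lex`. `N2s`: the first set of
generators of `stripcone`, `f = - cut_i s'` for the far `C`, `f = cut_i s` for the near `C`. `N2p`: the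
second set, `f = - cut_i s`. `N3s`: the first set with `s' = s`, `f = ± cut_i s` and the
alternative `∃ k ∈ C, f k < 0` in `cov_of_gens`. -/
def S_cov_n2 : Prop :=
  ∀ {CC : Finset (Finset V)} {q v w : V} {i : Fin 3},
    ((∃ s' s, N2s CC q v w i s' s) → Cov CC q v w) ∧
    ((∃ s, N2p CC q v w i s) → Cov CC q v w) ∧ ((∃ s, N3s CC q v w i s) → Cov CC q v w)


/-! # Decidability of the normal forms -/

/-- Restriction of a semialgebraic set over `ℚ` to natural points. Induction on `SA`: for `pos a`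
clear denominators, and the sign of an integer polynomial at natural points is primitive recursive. -/
def S_sa_nat : Prop :=
  ∀ {M : ℕ} {S : Set (Fin M → ℝ)} (hS : Pool.Agent.Lib.MP42.SA
    (Pool.Agent.Lib.MP42.evR M) S),
    PrimrecPred (fun x : Fin M → ℕ => (fun i => (x i : ℝ)) ∈ S)


/-- Helly (`Convex.helly_theorem'`) for the convex sets `f y ∩ A`, `y ∈ K`. -/
def S_helly_pts : Prop :=
  ∀ {d : ℕ} {α : Type} (K : List α) (A : Set (Fin d → ℝ)) (hA : Convex ℝ A)
    (f : α → Set (Fin d → ℝ)) (hf : ∀ a, Convex ℝ (f a)),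
    (∃ s ∈ A, ∀ y ∈ K, s ∈ f y) ↔ (∃ s, s ∈ A) ∧
      ∀ g : Fin (d + 1) → α, (∀ i, g i ∈ K) → ∃ s ∈ A, ∀ i, s ∈ f (g i)


/-- Induction on the list. -/
def S_mem_labs : Prop :=
  ∀ {r t : ℕ} (L : List (List (Fin r × V))) (R : Fin t → Fin r × V → Prop),
    (∃ K ∈ labs (r := r) (t := t) L, ∀ y ∈ K, R y.1 y.2) ↔ ∀ C ∈ L, ∃ a, ∀ e ∈ C, R a e


/-- `labs` is primitive recursive (list recursion). -/
def S_primrec_labs : Prop :=
  ∀ {r t : ℕ},
    Primrec (labs (r := r) (t := t))


/-- Bounded quantification over tuples of elements of a list; induction on `n`. -/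
def S_forall_tuple : Prop :=
  ∀ {α β : Type} [Primcodable α] [Primcodable β] {n : ℕ}
    {R : (Fin n → α) × β → Prop} (hR : PrimrecPred R),
    PrimrecPred (fun x : List α × β => ∀ f : Fin n → α, (∀ i, f i ∈ x.1) → R (f, x.2))


/-- Hypothesis: `sa_nat`. Finitely many values of the labels `(x.1 i).1`, `(x.1 i).2.1`; for fixed labels the
condition on the `3 (d + 1) + m` natural parameters is the restriction of the projection (along
`s`) of a semialgebraic set over `ℚ` (`CAD.projMv`, `cad_evR`, `continuous_evR` of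
`Pool.Agent.Lib.MP_42de19_nt.CAD` and `Semialg`), so `sa_nat`. -/
def S_dt_tuple : Prop :=
  ∀ {m d r t : ℕ} (base : (Fin m → ℝ) → (Fin d → ℝ) → Prop)
    (pt : Fin t → Fin r → R3 → (Fin d → ℝ) → Prop)
    (hb : Pool.Agent.Lib.MP42.SA (Pool.Agent.Lib.MP42.evMv d (Pool.Agent.Lib.MP42.evR m))
      {p | base p.1 p.2})
    (hp : ∀ a e, Pool.Agent.Lib.MP42.SA
      (Pool.Agent.Lib.MP42.evMv d (Pool.Agent.Lib.MP42.evR 3)) {p | pt a e p.1 p.2}),
    PrimrecPred (fun x : (Fin (d + 1) → Fin t × Fin r × V) × (Fin m → ℕ) =>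
      ∃ s, base (fun i => (x.2 i : ℝ)) s ∧
        ∀ i, pt (x.1 i).1 (x.1 i).2.1 (rv (x.1 i).2.2) s)


/-- Hypotheses: `sa_nat`, `helly_pts`, `mem_labs`, `primrec_labs`, `forall_tuple`, `dt_tuple`. The condition
says: there is a labeling `K ∈ labs x.1` such that `∃ s, base ∧ ∀ y ∈ K, pt y.1 y.2.1 y.2.2 s`
(`mem_labs`), and by `helly_pts` this is `(∃ s, base)` and a condition on all `(d + 1)`-tuples
of elements of `K`. -/
def S_dt_main : Prop :=
  ∀ {m d r t : ℕ} (base : (Fin m → ℝ) → (Fin d → ℝ) → Prop)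
    (pt : Fin t → Fin r → R3 → (Fin d → ℝ) → Prop)
    (hb : Pool.Agent.Lib.MP42.SA (Pool.Agent.Lib.MP42.evMv d (Pool.Agent.Lib.MP42.evR m))
      {p | base p.1 p.2})
    (hp : ∀ a e, Pool.Agent.Lib.MP42.SA
      (Pool.Agent.Lib.MP42.evMv d (Pool.Agent.Lib.MP42.evR 3)) {p | pt a e p.1 p.2})
    (hcb : ∀ x, Convex ℝ {s | base x s}) (hcp : ∀ a e k, Convex ℝ {s | pt a e k s}),
    PrimrecPred (fun x : List (List (Fin r × V)) × (Fin m → ℕ) =>
      ∃ s, base (fun i => (x.2 i : ℝ)) s ∧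
        ∀ C ∈ x.1, ∃ a : Fin t, ∀ e ∈ C, pt a e.1 (rv e.2) s)


/-- Hypothesis: `dt_main` with `m = 9` (the coordinates of `q, v, w`), `d = 9` (`s i j` is the
coordinate `3 i + j`), `r = 1`, `t = 3`: `base` = the conditions on couplings and `lexpos`,
`pt a _ k s` = `cut a (s a) k ≤ 0`. All are convex and semialgebraic. -/
def S_dec_n1 : Prop :=
    PrimrecPred (fun x : List (List V) × (V × V × V) =>
    ∃ s, N1s (fin x.1) x.2.1 x.2.2.1 x.2.2.2 s)


/-- Hypothesis: `dt_main` with `m = 9`, `d = 6`, `r = 1`, `t = 2`. -/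
def S_dec_n2 : Prop :=
  ∀ (i : Fin 3),
    PrimrecPred (fun x : List (List V) × (V × V × V) =>
    ∃ s' s, N2s (fin x.1) x.2.1 x.2.2.1 x.2.2.2 i s' s)


/-- Hypothesis: `dt_main` with `m = 9`, `d = 3`, `r = 1`, `t = 1`. -/
def S_dec_n2p : Prop :=
  ∀ (i : Fin 3),
    PrimrecPred (fun x : List (List V) × (V × V × V) =>
    ∃ s, N2p (fin x.1) x.2.1 x.2.2.1 x.2.2.2 i s)


/-- Hypothesis: `dt_main` with `m = 9`, `d = 3`, `r = 2`, `t = 2`: replace `C` by the list of the
`(0, k)`, `k ∈ C`, and `(1, sum of C)`; `pt a 0 k s` = `0 ≤ ± cut`, `pt a 1 k s` = `0 < ± cut` (if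
`cut ≥ 0` on `C`, then `cut > 0` somewhere on `C` iff `cut > 0` at the sum). -/
def S_dec_n3 : Prop :=
  ∀ (i : Fin 3),
    PrimrecPred (fun x : List (List V) × (V × V × V) =>
    ∃ s, N3s (fin x.1) x.2.1 x.2.2.1 x.2.2.2 i s)

/-! # Semilinear sets: small witnesses, decidability of inclusion and disjointness -/

/-- For `x`, `m` and a linear set `L(c, p_1, ..., p_r)` of the list let `K(x, m)` be the set of all
`c' ∈ ℕ^3` such that `c + ∑ a_i p_i = (x mod 2^m) + 2^m c'` for some `a_i < 2^m` (`mod` for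
each coordinate). All these `c'` have coordinates `≤ wt S` (`c + (2^m - 1) ∑ p_i ≤ 2^m wt S`);
`K` depends only on `x mod 2^m`; and `x ∈ L(c, p)` iff `x div 2^m ∈ L(c', p)` for some
`c' ∈ K(x, m)` (write the coefficients as `a_i + 2^m b_i`). If `m₁ < m₂` and `K(x, m₁) = K(x, m₂)` for
all linear sets of the list, then `x' = (x mod 2^m₁) + 2^m₁ (x div 2^m₂)` is in the same linear
sets as `x`. The family of the `K(x, m)` (one for each index of the list) has at most
`2 ^ (S.length * (wt S + 1) ^ 3)` values, so if some coordinate of `x` is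
`≥ bnd 3 S = 2 ^ 2 ^ (S.length * (wt S + 1) ^ 3)`, there are such `m₁ < m₂` with
`m₂ ≤ 2 ^ (S.length * (wt S + 1) ^ 3)` and `x'` has a smaller sum of coordinates. Induction on the
sum of the coordinates. -/
def S_small_witness : Prop :=
  ∀ (S : List (V × List V)) (x : V),
    ∃ x' : V, (∀ i, x' i < bnd 3 S) ∧ ∀ p ∈ S, (x ∈ US [p] ↔ x' ∈ US [p])


/-- Coefficients can be bounded by `x 0 + x 1 + x 2` (a zero period needs no coefficient): compute
the list of all sums `c + a_1 p_1 + ... + a_i p_i` with all coefficients bounded, by recursion on the list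
of periods (`Primrec.list_foldl` or `list_rec`), and test membership. -/
def S_us_primrec : Prop :=
    PrimrecPred (fun y : V × List (V × List V) => y.1 ∈ US y.2)


/-- Sums over lists are primitive recursive. -/
def S_bnd_primrec : Prop :=
    Primrec (fun S : List (V × List V) => bnd 3 S)


/-- Hypotheses: `small_witness`, `us_primrec`, `bnd_primrec`. By `small_witness` for
`x.1 ++ x.2` it is enough to check the points with all coordinates `< bnd 3 (x.1 ++ x.2)`. -/
def S_us_rel_primrec : Prop :=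
    PrimrecPred (fun x : List (V × List V) × List (V × List V) => US x.1 ⊆ US x.2) ∧
    PrimrecPred (fun x : List (V × List V) × List (V × List V) =>
      Disjoint (US x.1) (US x.2))


/-! # Stratified sets in dimension three, recursively enumerable sets -/

/-- Search over the codes of `b`. -/
def S_re_exists : Prop :=
  ∀ {α β : Type} [Primcodable α] [Primcodable β] {R : α → β → Prop}
    (h : ComputablePred (fun x : α × β => R x.1 x.2)),
    REPred (fun a => ∃ b, R a b)


/-- `LS c P` for finite `P` is `Lin c P` (membership in `AddSubmonoid.closure` of a finite set). In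
dimension three `Stratified P` says that every `p ∈ P` has a zero coordinate. -/
def S_strat_lin : Prop :=
  ∀ {X : Set V},
    StratUnion X ↔
    ∃ T : Finset (V × Finset V), (∀ p ∈ T, ∀ r ∈ p.2, Bd r) ∧ X = ⋃ p ∈ T, Lin p.1 p.2


/-- Duplicates in the list of periods do not matter. -/
def S_us_lin : Prop :=
  ∀ (S : List (V × List V)),
    US S = ⋃ p ∈ (S.map (fun p => (p.1, p.2.toFinset))).toFinset, Lin p.1 p.2


/-- In dimension `≤ 2` every finite set of periods is stratified. -/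
def S_strat_le_two : Prop :=
  ∀ {n : ℕ} (hn : n ≤ 2) (S : List ((Fin n → ℕ) × List (Fin n → ℕ))),
    StratUnion (US S)


/-- Hypotheses: `strat_lin`, `us_lin`, `us_rel_primrec`, `re_exists`. `StratUnion (US S)` iff there
is a list `T` with boundary periods and `US T = US S`, a primitive recursive condition on
`(S, T)`. -/
def S_re_strat : Prop :=
    REPred (fun S : List (V × List V) => StratUnion (US S))


/-- Induction on `|P|`. If `P` is dependent there are disjoint nonempty `A, B ⊆ P` (nonempty because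
natural vectors have no cancellation, or `0 ∈ P`, which can be omitted) and positive integers
with `∑_{p ∈ A} α_p p = ∑_{p ∈ B} β_p p`; subtracting this relation as often as possible every element of
`Lin c P` can be written with some coefficient `n_p < α_p`, `p ∈ A`; so `Lin c P` is the union of
the `Lin (c + t p) (P \ {p})`, `p ∈ A`, `t < α_p`. -/
def S_lin_ind : Prop :=
  ∀ (c : V) (P : Finset V),
    ∃ T : Finset (V × Finset V),
    (∀ t ∈ T, t.2 ⊆ P ∧ Ind t.2) ∧ Lin c P = ⋃ t ∈ T, Lin t.1 t.2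


/-! # Soundness of the certificates -/

/-- The set of the pairs of coefficient vectors `(l, l')`, all positive, with
`∑ l_p p = ∑ l'_k k` is nonempty and given by rational linear equations and strict inequalities;
so it has a rational point, for example by `dl`; clear denominators. (`P`, `C` may be dependent.) -/
def S_ocone_meet : Prop :=
  ∀ {P C : Finset V} (h : ¬ Disjoint (ocone P) (ocone C)),
    ∃ m n : V → ℕ, (∀ p ∈ P, 0 < m p) ∧ (∀ k ∈ C, 0 < n k) ∧
      ∑ p ∈ P, m p • p = ∑ k ∈ C, n k • k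


/-- Let `y_K` be the germ. For fixed `K ≥ K₀` the points `x₀ + s! N y_K` (natural vectors by
`hw`) are in `X`; one `(c, P₀) ∈ T` contains them for infinitely many `s`, and one
`(c, P₀)` works for infinitely many `K`. Take two such `s`: `y_K` is a rational combination
`∑ l_p(K) p` of `P₀`; three such `K`: so are `q, v, w`, and `l_p(K)` is a rational polynomial of degree
`≤ 2` in `K`. Then `x₀ - c = ∑ u_p p` with rational `u_p`, and for infinitely many `s`
`u_p + s! N l_p(K)` are natural numbers; so `l_p(K) ≥ 0`, `u_p` is an integer (`s!` kills the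
denominator of `N l_p(K)`), and `u_p ≥ 0` if `l_p(K) = 0`. As a polynomial in `K` each `l_p` is
identically zero or positive for all large `K`. Let `P` be the set of `p ∈ P₀` of the second
kind. For positive `m` and large `t`, `x₀ + t N ∑_{p ∈ P} m_p p = c + ∑_{p ∈ P} (u_p + t N m_p) p +
∑_{p ∈ P₀ \ P} u_p p` has natural coefficients. -/
def S_extract : Prop :=
  ∀ {X : Set V} {T : Finset (V × Finset V)}
    (hT : ∀ t ∈ T, (∀ p ∈ t.2, Bd p) ∧ Ind t.2) (hX : X = ⋃ t ∈ T, Lin t.1 t.2) {x₀ : Z3}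
    {N : ℕ} (hN : 1 ≤ N) {q v w : V} {K₀ : ℕ}
    (hw : ∀ K ≥ K₀, ∀ t : ℕ, 1 ≤ t → ∃ x ∈ X,
      zv x = x₀ + ((t * N : ℕ) : ℤ) • zv (germ q v w K)),
    ∃ P : Finset V, (∀ p ∈ P, Bd p) ∧ Ind P ∧
      (∀ᶠ K : ℕ in atTop, rv (germ q v w K) ∈ ocone P) ∧
      ∀ m : V → ℕ, (∀ p ∈ P, 0 < m p) → ∀ᶠ t : ℕ in atTop, ∀ x : V,
        zv x = x₀ + ((t * N : ℕ) : ℤ) • zv (∑ p ∈ P, m p • p) → x ∈ X


/-- Hypotheses: `strat_lin`, `lin_ind`, `extract`, `ocone_meet`, `rcov_of_cov`. Let `X = US S`,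
`x₀ = u - u'`. `X` is a finite union of `Lin c P` with `P` independent and boundary (`strat_lin`,
`lin_ind`). For `K > M` the germ is `y_K = g₃ + (K - M) g₂ + K (K - M) g₁` with
`g₁ = q`, `g₂ = M q + v`, `g₃ = M^2 q + M v + w`, so `x₀ + t N y_K` is an element of
`US [(base, sc N (gcone M q v w))] ⊆ X` for `t ≥ 1`. `extract` gives `P`. If `ocone P` meets
`ocone C` for a black `C = b.2.toFinset` then `ocone_meet`: `z = ∑ m_p p = ∑ n_k k`; for large `t` (at least
the multiplicities in the list `b.2`) the point `x₀ + t N z` is in `X` and in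
`US [(b.1, sc N b.2)]`, contradiction. So `P` is a piece, `Cov`, and by `rcov_of_cov` (`Good`
holds as the sums are positive) `RCov`, contradiction. -/
def S_cert_sound : Prop :=
  ∀ {S : List (V × List V)} (h : StratUnion (US S)),
    ¬ ∃ c, CertOK S c


/-- Hypotheses: `re_exists`, `us_rel_primrec`, `dec_n1`, `dec_n2`, `dec_n2p`, `dec_n3`. `CertOK` is a
primitive recursive predicate of the pair. -/
def S_re_cert : Prop :=
    REPred (fun S : List (V × List V) => ∃ c, CertOK S c)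


/-! # Completeness of the certificates -/

/-- `P` is independent. There are an integer `D > 0`, integer functionals `h_p` and `g_1, ..., g_s` such
that `x ∈ Lin c P` iff `g_i (x - c) = 0` for all `i` and `h_p (x - c) ≥ 0`, `D ∣ h_p (x - c)` for
all `p` (`h_p = D` times the coordinate with respect to `P`). `H` = all these functionals, `m = D`,
`B` = maximum of the `|h c|`, `h ∈ H`. -/
def S_tame_lin : Prop :=
  ∀ (c : V) {P : Finset V} (hP : Ind P),
    ∃ (H : Finset Z3) (B : ℤ) (m : ℕ),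
    0 < m ∧ Tame (Lin c P) H B m


/-- Hypotheses: `us_lin`, `lin_ind`, `tame_lin`. Union of the `H`, maximum of the `B`, product of
the `m`; then add the coordinate functionals to `H` and enlarge `B` (`Tame` is monotone). -/
def S_tame_us : Prop :=
  ∀ (S : List (V × List V)),
    ∃ (H : Finset Z3) (B : ℤ) (m : ℕ),
    0 < m ∧ 0 ≤ B ∧ (∀ i, Pi.single i 1 ∈ H) ∧ Tame (US S) H B m


/-- Hypothesis: `strat_lin`. Otherwise `X` is covered by finitely many `Lin c P ⊆ X` with boundary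
periods: if no finite union of such sets equals `X`, the sets `X \ (finite union)` generate a
proper filter; take an ultrafilter. -/
def S_exists_ultra : Prop :=
  ∀ {X : Set V} (h : ¬ StratUnion X),
    ∃ U : Ultrafilter V,
    (∀ᶠ x in (U : Filter V), x ∈ X) ∧ ∀ (c : V) (P : Finset V), (∀ p ∈ P, Bd p) →
      Lin c P ⊆ X → ∀ᶠ x in (U : Filter V), x ∉ Lin c P


/-- Let `H'` be the set of all `h : Z3` that have a value `ξ h : ℤ` with `N ∣ h x - ξ h` for almost
all `x`, for every `N > 0` (the value is unique). `H'` is a subgroup, `ξ` is additive, and `H'` is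
pure: if `n h ∈ H'`, `n > 0`, then `n ∣ ξ (n h)` (take `N = n`) and `ξ (n h) / n` is the value of
`h` (take `n N`). So `H'` has a basis that extends to a basis `b_1, b_2, b_3` of `Z3`. Let `x₀` be the
vector with `b_i x₀ = ξ b_i` for the `b_i ∈ H'`, and for the others `b_i x₀` = an integer that
is congruent to `b_i x` modulo `m` for almost all `x` (finitely many residues). -/
def S_exists_center : Prop :=
  ∀ (U : Ultrafilter V) {m : ℕ} (hm : 0 < m),
    ∃ x₀ : Z3,
    Cent (U : Filter V) x₀ ∧ ∀ᶠ x in (U : Filter V), ∀ j, (m : ℤ) ∣ zv x j - x₀ j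


/-- If `h x` is bounded on a set of `U` it is almost surely constant, `= ξ`, and `Cent` gives
`ξ = h x₀`. Otherwise for every `B` almost surely `|h x| > B`, and the sign is almost surely
constant. -/
def S_trich : Prop :=
  ∀ {U : Ultrafilter V} {x₀ : Z3} (h0 : Cent (U : Filter V) x₀) (h : Z3),
    (∀ᶠ x in (U : Filter V), h ⬝ᵥ zv x = h ⬝ᵥ x₀) ∨
      (∀ B : ℤ, ∀ᶠ x in (U : Filter V), B < h ⬝ᵥ zv x) ∨
      ∀ B : ℤ, ∀ᶠ x in (U : Filter V), h ⬝ᵥ zv x < B


/-- Hypothesis: `trich` for the coordinates (which are `≥ 0` on `V`). -/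
def S_sh_spec : Prop :=
  ∀ {U : Ultrafilter V} {x₀ : Z3} (h0 : Cent (U : Filter V) x₀),
    ∀ᶠ x in (U : Filter V), zv (sh x₀ x) = zv x - x₀


/-- If `x = x₀ + m t y'` is natural for large `t`, then so is `x₀ + m t y` (if `y j = 0` then
`y' j = 0`, so `x₀ j ≥ 0`). For large `t, t'` the points `x₀ + m t y` and `x₀ + m t' y'` are congruent
modulo `m`, and for `h ∈ H` the values are both `h x₀`, or both `> B`, or both `< - B`. `Tame`. -/
def S_white_congr : Prop :=
  ∀ {X : Set V} {H : Finset Z3} {B : ℤ} {m : ℕ} (hm : 0 < m)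
    (hT : Tame X H B m) (hc : ∀ i, Pi.single i 1 ∈ H) {x₀ : Z3} {y y' : V}
    (hs : ∀ h ∈ H, SignType.sign (h ⬝ᵥ zv y) = SignType.sign (h ⬝ᵥ zv y'))
    (h : White X x₀ m y),
    White X x₀ m y'


/-- `t₀` with `m t₀ > |B| + |h x₀|` for all `h ∈ H`. For `t ≥ t₀`, `y > 0` and `h ∈ H` the value of
`h` at `x₀ + m t y` is `h x₀` if `h y = 0`, `> B` if `h y ≥ 1`, `< - B` if `h y ≤ -1`. Compare with
`x₀ + m t' y`, `t'` large: `Tame`. -/
def S_white_unif : Prop :=
  ∀ {X : Set V} {H : Finset Z3} {B : ℤ} {m : ℕ} (hm : 0 < m)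
    (hT : Tame X H B m) (hc : ∀ i, Pi.single i 1 ∈ H) (x₀ : Z3),
    ∃ t₀ : ℕ, 1 ≤ t₀ ∧ ∀ t ≥ t₀, ∀ y : V, Pos y →
      (White X x₀ m y → ∃ x ∈ X, zv x = x₀ + ((m * t : ℕ) : ℤ) • zv y) ∧
      (¬ White X x₀ m y → ∃ x, x ∉ X ∧ zv x = x₀ + ((m * t : ℕ) : ℤ) • zv y)


/-- Hypotheses: `trich`, `sh_spec`. For almost all `x`, with `w = x - x₀`: `x ∈ X`, `x ≡ x₀` modulo `m`,
and for each `h ∈ H` either `h w = 0` or `|h w| > B + |h x₀|`, `h x` of the same sign. Then for
`t ≥ 1` the natural point `x' = x₀ + m t w` is congruent to `x` modulo `m` and has the same `H`-type: in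
`X` by `Tame`. -/
def S_white_ultra : Prop :=
  ∀ {X : Set V} {H : Finset Z3} {B : ℤ} {m : ℕ} (hm : 0 < m) (hB : 0 ≤ B)
    (hT : Tame X H B m) (hc : ∀ i, Pi.single i 1 ∈ H) {U : Ultrafilter V} {x₀ : Z3}
    (h0 : Cent (U : Filter V) x₀)
    (hx : ∀ᶠ x in (U : Filter V), ∀ j, (m : ℤ) ∣ zv x j - x₀ j)
    (hX : ∀ᶠ x in (U : Filter V), x ∈ X),
    ∀ᶠ x in (U : Filter V), White X x₀ m (sh x₀ x)


/-- Hypotheses: `trich`. Write `w = x - x₀ = ∑ l_p(w) p`, `l_p = a_p / D` with integer functionals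
`a_p` and `D > 0`; `a_p w > 0` almost surely, so `a_p w → ∞` (`trich`). Choose `N > 0`: a multiple of
`m`; `N > B + |h x₀|` for all `h ∈ H`; and for each `h ∈ H` that has no value in the sense of
`Cent`, and each `ξ` with `|ξ| ≤ B + |h x₀|`, a multiple of some `N₁` such that almost surely
`N₁` does not divide `h x - ξ`. Almost surely `a_p w ≡ r_p` modulo `D N`, `0 ≤ r_p < D N`,
`a_p w = r_p + D N k_p`, `k_p → ∞`. `c₀ = x - N ∑ k_p p = x₀ + ∑ (r_p / D) p` is an integer vector,
almost surely constant, `c₀ ≡ x` modulo `N`. Put `c = c₀ + N T ∑ p` with `T` so large that `c ≥ 0`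
(if all `p j = 0` then `c j = x j ≥ 0`) and `T ≥ 1`. Then almost surely `x ∈ Lin c (N P)`. Let
`z ∈ Lin c (N P)`, `y' = z - x₀ = ∑ (r_p / D + N (T + n_p)) p ∈ V`, in `ocone P`. So `y'` is white:
`x' = x₀ + m t y' ∈ X` for large `t`. `z ≡ x ≡ x₀ ≡ x'` modulo `m`. Let `h ∈ H`. If `h` has a
value, `h x₀`, then `h y' = h z - h x₀ ≡ h x - h x₀ ≡ 0` modulo `N`, so `h y' = 0` or
`|h y'| ≥ N > B + |h x₀|`. If `h` has no value then `h z ≡ h x` modulo `N` is not congruent to any
`ξ` with `|ξ| ≤ B + |h x₀|`, so `|h z| > B + |h x₀|`, and so `h y' ≠ 0` has the sign of `h z`. In all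
cases `h z = h x' (= h x₀)`, or both are `> B`, or both are `< - B`. So `z ∈ X` by `Tame`. -/
def S_cl : Prop :=
  ∀ {X : Set V} {H : Finset Z3} {B : ℤ} {m : ℕ} (hm : 0 < m) (hB : 0 ≤ B)
    (hT : Tame X H B m) {U : Ultrafilter V} {x₀ : Z3} (h0 : Cent (U : Filter V) x₀)
    (hx : ∀ᶠ x in (U : Filter V), ∀ j, (m : ℤ) ∣ zv x j - x₀ j) {P : Finset V} (hI : Ind P)
    (hP : ∀ᶠ x in (U : Filter V), iv (zv x - x₀) ∈ ocone P)
    (hW : ∀ y : V, rv y ∈ ocone P → White X x₀ m y),
    ∃ (c : V) (N : ℕ), 0 < N ∧ Lin c (P.image (fun p => N • p)) ⊆ X ∧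
      ∀ᶠ x in (U : Filter V), x ∈ Lin c (P.image (fun p => N • p))


/-- For every choice of signs `σ : H → {1, -1}` the set `K_σ` of all `y ∈ V` with `σ_h h y ≥ 0` for
all `h ∈ H` has a finite subset `G_σ` with `K_σ ⊆ ccone G_σ` (Gordan / Dickson; or: `K_σ` is
semilinear, a finite union of `c + ` (sums of periods), and `c` and the periods are in `K_σ`). `DD` =
all independent subsets of all `G_σ`; Caratheodory. -/
def S_dec_cones : Prop :=
  ∀ (H : Finset Z3),
    ∃ DD : Finset (Finset V), (∀ D ∈ DD, Ind D) ∧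
    (∀ D ∈ DD, ∀ h ∈ H, (∀ k ∈ D, 0 ≤ h ⬝ᵥ zv k) ∨ (∀ k ∈ D, h ⬝ᵥ zv k ≤ 0)) ∧
    ∀ y : V, ∃ D ∈ DD, rv y ∈ ocone D


/-- If `h k ≥ 0` for all `k ∈ D` (or `≤ 0` for all), the sign of `h` is the same at all points of
`ocone D`. -/
def S_sign_ocone : Prop :=
  ∀ {D : Finset V} {h : Z3} (hD : (∀ k ∈ D, 0 ≤ h ⬝ᵥ zv k) ∨
    (∀ k ∈ D, h ⬝ᵥ zv k ≤ 0)) {y y' : V} (hy : rv y ∈ ocone D) (hy' : rv y' ∈ ocone D),
    SignType.sign (h ⬝ᵥ zv y) = SignType.sign (h ⬝ᵥ zv y')


/-- `g₁ = q`, `g₂ = M q + v`, `g₃ = M^2 q + M v + w`. If `h q ≠ 0` then for large `M` all `h g_i` have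
the sign of `h q`; if `h q = 0 ≠ h v` then `h g₁ = 0`, `h g₂ = h v`, and `h g₃` has the sign of
`h v`; if `h q = h v = 0` then `h g₃ = h w`. Same for the germ for large `N`. -/
def S_germ_cone : Prop :=
  ∀ (H : Finset Z3) (q v w : V),
    ∃ M : ℕ, ∀ t₁ t₂ t₃ : ℕ, 1 ≤ t₁ → 1 ≤ t₂ →
    1 ≤ t₃ → ∀ᶠ N : ℕ in atTop, ∀ h ∈ H, SignType.sign (h ⬝ᵥ zv (fun j => t₁ * q j +
      t₂ * (M * q j + v j) + t₃ * (M ^ 2 * q j + M * v j + w j))) =
      SignType.sign (h ⬝ᵥ zv (germ q v w N))


/-- Hypotheses: `white_congr`, `white_unif`, `sign_ocone`, `germ_cone`, `cov_n1`, `cov_n2`.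
`CC` = the black cones. `t₀` from `white_unif`, `N = m t₀`, `M` from `germ_cone`, `u, u'` with
`u - u' = x₀`. White part: for `t₁, t₂, t₃ ≥ 1` the vector `y = t₁ g₁ + t₂ g₂ + t₃ g₃` is positive (`hpos`) and has
the `H`-signs of the germ for large `N`, which is in `ocone D` for some `D ∈ DD`, by `havoid` not in
`CC`, and all coordinates of the germ are positive, so `D` has positive sum, so `D` is white (`hCC`):
`White (∑ D)`, and `y` has the `H`-signs of `∑ D` (`sign_ocone`), so `White y`, and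
`white_unif` with `t = t₀`. The base is the point with `t_i = 1`. Black part: for `C ∈ CC` and
`n_k ≥ 1` the vector `y = ∑ n_k k` is positive, has the `H`-signs of `∑ C`, which is
not white, so `y` is not white (`white_congr`), and `white_unif`. Black list: `C.toList` for `C` in
`CC.toList`. Last condition: `¬ Cov` gives `¬ RCov` by `cov_n1`, `cov_n2`. -/
def S_cert_of_germ : Prop :=
  ∀ {S : List (V × List V)} {H : Finset Z3} {B : ℤ} {m : ℕ} (hm : 0 < m)
    (hT : Tame (US S) H B m) (hc : ∀ i, Pi.single i 1 ∈ H) {x₀ : Z3}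
    {DD CC : Finset (Finset V)}
    (hD1 : ∀ D ∈ DD, ∀ h ∈ H, (∀ k ∈ D, 0 ≤ h ⬝ᵥ zv k) ∨ (∀ k ∈ D, h ⬝ᵥ zv k ≤ 0))
    (hD2 : ∀ y : V, ∃ D ∈ DD, rv y ∈ ocone D)
    (hCC : ∀ D, D ∈ CC ↔ D ∈ DD ∧ (∀ j, ∃ k ∈ D, 0 < k j) ∧
      ¬ White (US S) x₀ m (∑ k ∈ D, k)) {q v w : V}
    (hpos : ∀ j, 0 < q j + v j + w j)
    (havoid : ∀ C ∈ CC, ∀ᶠ N : ℕ in atTop, rv (germ q v w N) ∉ ocone C)
    (hn : ¬ Cov CC q v w),
    ∃ c, CertOK S c


/-- Hypotheses: `tame_us`, `exists_ultra`, `exists_center`, `trich`, `sh_spec`, `white_ultra`,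
`dec_cones`, `sign_ocone`, `white_congr`, `cl`, `geo`, `cert_of_germ`. Let `X = US S`, `H, B, m` from
`tame_us`, `U` from `exists_ultra`, `x₀` from `exists_center`, `DD` from `dec_cones`,
`F = U.map (sh x₀)`. Almost surely `sh x₀ x = x - x₀` (`sh_spec`) and
`White (sh x₀ x)` (`white_ultra`). Case A: `F`-almost all `y` have `y j = 0` for some fixed `j`. `U`
almost all `x` have `sh x₀ x ∈ ocone D` for one `D ∈ DD` (finitely many); then `k j = 0` for all
`k ∈ D`, so `D` consists of boundary vectors; some element of `ocone D` is white, so all are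
(`white_congr`, `sign_ocone`); `cl` with `P = D` gives a set `Lin c (N D) ⊆ X` in `U`,
contradiction to `exists_ultra`. Case B: almost all `y` are positive. `CC` = the `D ∈ DD` with positive
coordinates in the sum and not white. For `C ∈ CC` almost all `y` are not in `ocone C` (they are
white, elements of `ocone C` are not, by `white_congr`, `sign_ocone`). `geo`. If
`UCov CC F` with the piece `P`: all `y ∈ ocone P` are positive (the zero coordinates of `y` are
the common zero coordinates of `P`, and some `y ∈ ocone P` is positive); `y ∈ ocone D` for some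
`D ∈ DD`, with positive sum; `D ∉ CC` because `ocone P` and `ocone D` meet; so `∑ D` is white and
`y` is white. `cl` and `exists_ultra`: contradiction. Otherwise `cert_of_germ`. -/
def S_cert_complete : Prop :=
  ∀ {S : List (V × List V)} (h : ¬ StratUnion (US S)),
    ∃ c, CertOK S c


end Pool.Agent.MP2a1ef3.N3
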